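import Mathlib

/-!
# General lemmas: homogeneous polynomials and transcendence degree
-/

namespace Pool.Agent.MPa67235

open MvPolynomial

/-- homogeneity in terms of evaluation -/
lemma eval_scale {R σ : Type*} [CommRing R] {G : MvPolynomial σ R} {d : ℕ}
    (hG : G.IsHomogeneous d) (c : R) (x : σ → R) :
    eval (fun i => c * x i) G = c ^ d * eval x G := by
  rw [eval_eq, eval_eq, Finset.mul_sum]
  refine Finset.sum_congr rfl (fun m hm => ?_)
  have h1 : ∏ i ∈ m.support, (c * x i) ^ m i = c ^ d * ∏ i ∈ m.support, x i ^ m i := by
    simp_rw [mul_pow]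
    rw [Finset.prod_mul_distrib, Finset.prod_pow_eq_pow_sum]
    have h2 := hG.degree_eq_sum_deg_support hm
    have h3 : ∑ i ∈ m.support, m i = d := h2.symm
    rw [h3]
  rw [h1]; ring

/-- If the field generated by finitely many elements contains a family of algebraically
independent elements of the same cardinality, the generators are algebraically independent. -/
lemma algebraicIndependent_of_card {F E : Type} [Field F] [Field E] [Algebra F E] {ι κ : Type}
    [Finite ι] (g : ι → E) (x : κ → E) (hx : AlgebraicIndependent F x)
    (hmem : ∀ o, x o ∈ IntermediateField.adjoin F (Set.range g))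
    (hcard : Cardinal.mk ι ≤ Cardinal.mk κ) : AlgebraicIndependent F g := by
  set A := IntermediateField.adjoin F (Set.range g) with hA
  have gmem : ∀ i, g i ∈ A := fun i => IntermediateField.subset_adjoin _ _ ⟨i, rfl⟩
  let g' : ι → A := fun i => ⟨g i, gmem i⟩
  have halg : Algebra.IsAlgebraic (Algebra.adjoin F (Set.range g')) A := by
    constructor
    intro y
    have htop : y ∈ IntermediateField.adjoin F (Set.range g') := by
      have h1 : (IntermediateField.adjoin F (Set.range g')).map A.val = A := by
        rw [IntermediateField.adjoin_map]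
        show IntermediateField.adjoin F (A.val '' Set.range g') = IntermediateField.adjoin F (Set.range g)
        congr 1
        ext z
        constructor
        · rintro ⟨_, ⟨i, rfl⟩, rfl⟩
          exact ⟨i, rfl⟩
        · rintro ⟨i, rfl⟩
          exact ⟨g' i, ⟨i, rfl⟩, rfl⟩
      have h2 : (y : E) ∈ (IntermediateField.adjoin F (Set.range g')).map A.val := by
        rw [h1]; exact y.2
      obtain ⟨z, hz, hzy⟩ := h2
      have : z = y := Subtype.ext hzy
      rw [← this]; exact hz
    obtain ⟨r, hr, s, hs, rfl⟩ := IntermediateField.mem_adjoin_iff_div.mp htop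
    have h1 : IsAlgebraic (Algebra.adjoin F (Set.range g')) r :=
      isAlgebraic_algebraMap (⟨r, hr⟩ : Algebra.adjoin F (Set.range g'))
    have h2 : IsAlgebraic (Algebra.adjoin F (Set.range g')) s :=
      isAlgebraic_algebraMap (⟨s, hs⟩ : Algebra.adjoin F (Set.range g'))
    rw [div_eq_mul_inv]
    exact h1.mul h2.inv
  have h1 : AlgebraicIndependent F (fun o => (⟨x o, hmem o⟩ : A)) := by
    have h2 : x = A.val ∘ (fun o => (⟨x o, hmem o⟩ : A)) := rfl
    rw [h2] at hx
    exact AlgebraicIndependent.of_comp A.val hx
  have h3 := h1.cardinalMk_le_trdeg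
  have h4 : AlgebraicIndependent F g' :=
    (Algebra.IsAlgebraic.isTranscendenceBasis_of_le_trdeg_of_finite F g' (hcard.trans h3)).1
  exact h4.map' (f := A.val) Subtype.val_injective

end Pool.Agent.MPa67235
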