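import Mathlib

/-!
# The curve `y² = x³ - 2` and the multiples of the point `(3, 5)`
-/

namespace Pool.Agent.MPa67235

open WeierstrassCurve

/-- The elliptic curve `y² = x³ - 2` over `ℚ`. -/
noncomputable def E : WeierstrassCurve ℚ := ⟨0, 0, 0, 0, -2⟩

lemma E_Δ : E.Δ = -1728 := by
  simp only [E, WeierstrassCurve.Δ, WeierstrassCurve.b₂, WeierstrassCurve.b₄,
    WeierstrassCurve.b₆, WeierstrassCurve.b₈]
  norm_num

instance : E.IsElliptic := ⟨by rw [E_Δ]; exact isUnit_iff_ne_zero.mpr (by norm_num)⟩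

/-- Points on `E`. -/
abbrev Pt : Type := E.toAffine.Point

/-- x-coordinate (`0` for the point at infinity). -/
def px : Pt → ℚ
  | .zero => 0
  | .some x _ _ => x

/-- y-coordinate (`0` for the point at infinity). -/
def py : Pt → ℚ
  | .zero => 0
  | .some _ y _ => y

lemma E_equation_iff (x y : ℚ) : E.toAffine.Equation x y ↔ y ^ 2 = x ^ 3 - 2 := by
  rw [WeierstrassCurve.Affine.equation_iff]
  simp only [E, WeierstrassCurve.toAffine]
  constructor <;> intro h <;> linarith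

lemma py_sq {P : Pt} (hP : P ≠ 0) : py P ^ 2 = px P ^ 3 - 2 := by
  rcases P with _ | ⟨x, y, h⟩
  · exact absurd rfl hP
  · exact (E_equation_iff x y).mp h.1

lemma negY_eq (x y : ℚ) : E.toAffine.negY x y = -y := by
  simp [WeierstrassCurve.Affine.negY, E, WeierstrassCurve.toAffine]

lemma add_generic {P R : Pt} (hP : P ≠ 0) (hR : R ≠ 0) (hx : px P ≠ px R) :
    P + R ≠ 0 ∧
    px (P + R) = ((py P - py R) / (px P - px R)) ^ 2 - px P - px R ∧
    py (P + R) = -((py P - py R) / (px P - px R) * (px (P + R) - px P) + py P) := by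
  rcases P with _ | ⟨x₁, y₁, h₁⟩
  · exact absurd rfl hP
  rcases R with _ | ⟨x₂, y₂, h₂⟩
  · exact absurd rfl hR
  have hx' : x₁ ≠ x₂ := hx
  rw [WeierstrassCurve.Affine.Point.add_of_X_ne hx']
  refine ⟨WeierstrassCurve.Affine.Point.some_ne_zero _, ?_, ?_⟩
  · simp only [px, py]
    rw [WeierstrassCurve.Affine.slope_of_X_ne hx']
    simp [WeierstrassCurve.Affine.addX, E, WeierstrassCurve.toAffine]
  · simp only [px, py]
    rw [WeierstrassCurve.Affine.slope_of_X_ne hx']
    simp [WeierstrassCurve.Affine.addY, WeierstrassCurve.Affine.negAddY,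
      WeierstrassCurve.Affine.addX, E, WeierstrassCurve.toAffine]

lemma add_double {P : Pt} (hP : P ≠ 0) (hy : py P ≠ 0) :
    P + P ≠ 0 ∧
    px (P + P) = (3 * px P ^ 2 / (2 * py P)) ^ 2 - 2 * px P ∧
    py (P + P) = -(3 * px P ^ 2 / (2 * py P) * (px (P + P) - px P) + py P) := by
  rcases P with _ | ⟨x₁, y₁, h₁⟩
  · exact absurd rfl hP
  have hy' : y₁ ≠ E.toAffine.negY x₁ y₁ := by
    rw [negY_eq]; intro h; apply hy; simp only [py]; linarith
  rw [WeierstrassCurve.Affine.Point.add_self_of_Y_ne hy']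
  refine ⟨WeierstrassCurve.Affine.Point.some_ne_zero _, ?_, ?_⟩
  · simp only [px, py]
    rw [WeierstrassCurve.Affine.slope_of_Y_ne rfl hy']
    simp only [negY_eq]
    simp [WeierstrassCurve.Affine.addX, E, WeierstrassCurve.toAffine]
    ring
  · simp only [px, py]
    rw [WeierstrassCurve.Affine.slope_of_Y_ne rfl hy']
    simp only [WeierstrassCurve.Affine.addY, WeierstrassCurve.Affine.negAddY,
      WeierstrassCurve.Affine.addX, negY_eq]
    simp only [E, WeierstrassCurve.toAffine]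
    ring

lemma px_neg (P : Pt) : px (-P) = px P := by
  rcases P with _ | ⟨x, y, h⟩
  · rfl
  · rfl

lemma py_neg (P : Pt) : py (-P) = -py P := by
  rcases P with _ | ⟨x, y, h⟩
  · show (0 : ℚ) = -0
    simp
  · show E.toAffine.negY x y = - y
    exact negY_eq x y

lemma eq_or_neg {P R : Pt} (hP : P ≠ 0) (hR : R ≠ 0) (hx : px P = px R) : P = R ∨ P = -R := by
  rcases P with _ | ⟨x₁, y₁, h₁⟩
  · exact absurd rfl hP
  rcases R with _ | ⟨x₂, y₂, h₂⟩
  · exact absurd rfl hR
  exact WeierstrassCurve.Affine.Point.X_eq_iff.mp hx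

/-- The point `(3, 5)`. -/
noncomputable def Q₀ : Pt := WeierstrassCurve.Affine.Point.some 3 5 (by
  rw [WeierstrassCurve.Affine.nonsingular_iff]
  refine ⟨(E_equation_iff 3 5).mpr (by norm_num), ?_⟩
  right
  simp only [E, WeierstrassCurve.toAffine]
  norm_num)

lemma Q₀_ne : Q₀ ≠ 0 := WeierstrassCurve.Affine.Point.some_ne_zero _

lemma px_Q₀ : px Q₀ = 3 := rfl
lemma py_Q₀ : py Q₀ = 5 := rfl

lemma py_ne_zero {P : Pt} (hP : P ≠ 0) : py P ≠ 0 := by
  intro h
  have h1 := py_sq hP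
  rw [h] at h1
  -- x^3 = 2 impossible over ℚ
  have h2 : px P ^ 3 = 2 := by linarith
  have h3 : ∃ n : ℤ, px P = n := by
    have hint : IsIntegral ℤ (px P) := by
      refine ⟨Polynomial.X ^ 3 - Polynomial.C 2, Polynomial.monic_X_pow_sub_C _ (by norm_num), ?_⟩
      simp [h2]
    obtain ⟨n, hn⟩ := IsIntegrallyClosed.isIntegral_iff.mp hint
    exact ⟨n, by simpa using hn.symm⟩
  obtain ⟨n, hn⟩ := h3
  rw [hn] at h2
  have h4 : n ^ 3 = 2 := by exact_mod_cast h2
  have h5 : n ≤ 1 := by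
    by_contra hlt
    push Not at hlt
    have : (2 : ℤ) ≤ n := by omega
    have : (8 : ℤ) ≤ n ^ 3 := by
      calc (8:ℤ) = 2 ^ 3 := by norm_num
        _ ≤ n ^ 3 := by gcongr
    omega
  have h6 : n ≤ 1 → n ^ 3 ≤ 1 := by
    intro h
    rcases le_or_gt 0 n with h0 | h0
    · have : n ^ 3 ≤ 1 ^ 3 := by gcongr
      simpa using this
    · have : n ^ 3 < 0 := by
        have := Odd.pow_neg (n := 3) (by decide) h0
        exact this
      omega
  have := h6 h5
  omega

lemma px_ne_zero {P : Pt} (hP : P ≠ 0) : px P ≠ 0 := by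
  intro h
  have h1 := py_sq hP
  rw [h] at h1
  nlinarith [sq_nonneg (py P)]

end Pool.Agent.MPa67235
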