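import Mathlib
import Pool.Agent.MPa67235.Curve

/-!
# Heights of the multiples of `(3, 5)` on `y² = x³ - 2`
-/

namespace Pool.Agent.MPa67235

open WeierstrassCurve Height

/-! ### The point has infinite order -/

lemma px_double {P : Pt} (hP : P ≠ 0) :
    px (P + P) = px P * (px P ^ 3 + 16) / (4 * (px P ^ 3 - 2)) := by
  have hy := py_ne_zero hP
  have h1 := (add_double hP hy).2.1
  have h2 := py_sq hP
  rw [h1, ← h2]
  have h4 : px P ^ 3 = py P ^ 2 + 2 := by linarith
  field_simp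
  linear_combination (32 * px P) * h4

/-- `dbl k = 2^k • Q₀` -/
noncomputable def dbl (k : ℕ) : Pt := (2 ^ k) • Q₀

lemma dbl_succ (k : ℕ) : dbl (k + 1) = dbl k + dbl k := by
  unfold dbl
  rw [pow_succ, mul_smul, two_smul, nsmul_add]

lemma dbl_ne (k : ℕ) : dbl k ≠ 0 := by
  induction k with
  | zero => simpa [dbl] using Q₀_ne
  | succ k ih => rw [dbl_succ]; exact (add_double ih (py_ne_zero ih)).1

lemma dbl_val (k : ℕ) : padicValRat 2 (px (dbl (k + 1))) = -2 * ((k : ℤ) + 1) := by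
  have : Fact (Nat.Prime 2) := ⟨Nat.prime_two⟩
  induction k with
  | zero =>
    have h : px (dbl (0 + 1)) = 129 / 100 := by
      rw [dbl_succ, px_double (dbl_ne 0)]
      simp only [dbl, pow_zero, one_smul, px_Q₀]
      norm_num
    rw [h]
    have h1 : ((129 : ℚ) / 100) = ((129 : ℕ) : ℚ) / ((100 : ℕ) : ℚ) := by norm_num
    rw [h1, padicValRat.div (by norm_num) (by norm_num), padicValRat.of_nat, padicValRat.of_nat]
    have e1 : padicValNat 2 129 = 0 := padicValNat.eq_zero_of_not_dvd (by norm_num)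
    have e2 : padicValNat 2 100 = 2 := by
      have : (100 : ℕ) = 2 ^ 2 * 25 := by norm_num
      rw [this, padicValNat.mul (by norm_num) (by norm_num), padicValNat.prime_pow,
        padicValNat.eq_zero_of_not_dvd (by norm_num)]
    rw [e1, e2]; norm_num
  | succ k ih =>
    set x := px (dbl (k + 1)) with hx
    have hx0 : x ≠ 0 := px_ne_zero (dbl_ne _)
    have hx3 : x ^ 3 ≠ 0 := pow_ne_zero 3 hx0
    rw [dbl_succ, px_double (dbl_ne _), ← hx]
    have hy := py_sq (dbl_ne (k + 1))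
    rw [← hx] at hy
    have hy0 : x ^ 3 - 2 ≠ 0 := by rw [← hy]; exact pow_ne_zero 2 (py_ne_zero (dbl_ne _))
    have hv3 : padicValRat 2 (x ^ 3) = 3 * (-2 * ((k : ℤ) + 1)) := by
      rw [padicValRat.pow, ih]; norm_num
    have v16 : padicValRat 2 (16 : ℚ) = 4 := by
      have : (16 : ℚ) = ((2 : ℚ)) ^ 4 := by norm_num
      rw [this, padicValRat.pow]
      have : padicValRat 2 (2 : ℚ) = 1 := by exact_mod_cast padicValRat.self (p := 2) (by norm_num)
      rw [this]; norm_num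
    have v4 : padicValRat 2 (4 : ℚ) = 2 := by
      have : (4 : ℚ) = ((2 : ℚ)) ^ 2 := by norm_num
      rw [this, padicValRat.pow]
      have : padicValRat 2 (2 : ℚ) = 1 := by exact_mod_cast padicValRat.self (p := 2) (by norm_num)
      rw [this]; norm_num
    have v2 : padicValRat 2 (-2 : ℚ) = 1 := by
      rw [padicValRat.neg]
      exact_mod_cast padicValRat.self (p := 2) (by norm_num)
    have hx16 : x ^ 3 + 16 ≠ 0 := by
      intro h
      have : padicValRat 2 (x ^ 3) = padicValRat 2 (16 : ℚ) := by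
        have : x ^ 3 = -16 := by linarith
        rw [this, padicValRat.neg]
      rw [hv3, v16] at this
      omega
    have w16 : padicValRat 2 (x ^ 3 + 16) = 3 * (-2 * ((k : ℤ) + 1)) := by
      rw [padicValRat.add_eq_of_lt hx16 hx3 (by norm_num) (by rw [hv3, v16]; omega), hv3]
    have w2 : padicValRat 2 (x ^ 3 - 2) = 3 * (-2 * ((k : ℤ) + 1)) := by
      rw [sub_eq_add_neg] at hy0 ⊢
      rw [padicValRat.add_eq_of_lt hy0 hx3 (by norm_num) (by rw [hv3, v2]; omega), hv3]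
    rw [padicValRat.div (mul_ne_zero hx0 hx16) (mul_ne_zero (by norm_num) hy0),
      padicValRat.mul hx0 hx16, padicValRat.mul (by norm_num) hy0, w16, w2, v4, ih]
    push_cast
    ring

lemma dbl_injective : Function.Injective (fun k => dbl (k + 1)) := by
  intro a b h
  have h1 := dbl_val a
  have h2 := dbl_val b
  simp only at h
  rw [h, h2] at h1
  omega

lemma not_torsion {m : ℕ} (hm : m ≠ 0) : m • Q₀ ≠ 0 := by
  intro h
  have hfin : IsOfFinAddOrder Q₀ := isOfFinAddOrder_iff_nsmul_eq_zero.mpr ⟨m, Nat.pos_of_ne_zero hm, h⟩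
  have h1 : ((AddSubmonoid.multiples Q₀ : AddSubmonoid Pt) : Set Pt).Finite := by
    exact finite_multiples.mpr hfin
  have h2 : ((AddSubmonoid.multiples Q₀ : AddSubmonoid Pt) : Set Pt).Infinite :=
    Set.infinite_of_injective_forall_mem dbl_injective (fun k => ⟨2 ^ (k + 1), rfl⟩)
  exact h2 h1

/-! ### Coordinates of multiples -/

/-- x-coordinate of `m • Q₀`. -/
noncomputable def X (m : ℕ) : ℚ := px (m • Q₀)

/-- y-coordinate of `m • Q₀`. -/
noncomputable def Y (m : ℕ) : ℚ := py (m • Q₀)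

lemma Y_sq {m : ℕ} (hm : m ≠ 0) : Y m ^ 2 = X m ^ 3 - 2 := py_sq (not_torsion hm)

lemma Y_ne {m : ℕ} (hm : m ≠ 0) : Y m ≠ 0 := py_ne_zero (not_torsion hm)

lemma X_ne {m : ℕ} (hm : m ≠ 0) : X m ≠ 0 := px_ne_zero (not_torsion hm)

lemma X_inj {s t : ℕ} (hs : s ≠ 0) (ht : t ≠ 0) (hst : s ≠ t) : X s ≠ X t := by
  intro h
  rcases eq_or_neg (not_torsion hs) (not_torsion ht) h with h1 | h1
  · rcases lt_or_gt_of_ne hst with hlt | hlt
    · obtain ⟨d, rfl⟩ := Nat.exists_eq_add_of_lt hlt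
      rw [show s + d + 1 = s + (d + 1) by ring, add_smul] at h1
      exact not_torsion (m := d + 1) (by omega) (by simpa using h1.symm)
    · obtain ⟨d, rfl⟩ := Nat.exists_eq_add_of_lt hlt
      rw [show t + d + 1 = t + (d + 1) by ring, add_smul] at h1
      exact not_torsion (m := d + 1) (by omega) (by simpa using h1)
  · have h2 : (s + t) • Q₀ = 0 := by rw [add_smul, h1]; simp
    exact not_torsion (by omega) h2

lemma Y_inj {s t : ℕ} (hs : s ≠ 0) (ht : t ≠ 0) (hst : s ≠ t) : Y s ≠ Y t := by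
  intro h
  have h1 := Y_sq hs
  have h2 := Y_sq ht
  rw [h, h2] at h1
  have h3 : X s ^ 3 = X t ^ 3 := by linarith
  exact X_inj hs ht hst ((Odd.strictMono_pow (R := ℚ) (n := 3) (by decide)).injective h3)

lemma XY_add {s t : ℕ} (hs : s ≠ 0) (ht : t ≠ 0) (hst : s ≠ t) :
    X (s + t) = ((Y s - Y t) / (X s - X t)) ^ 2 - X s - X t ∧
    Y (s + t) = -((Y s - Y t) / (X s - X t) * (X (s + t) - X s) + Y s) := by
  have h := add_generic (not_torsion hs) (not_torsion ht) (X_inj hs ht hst)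
  rw [← add_smul] at h
  exact h.2

lemma XY_double {s : ℕ} (hs : s ≠ 0) :
    X (2 * s) = (3 * X s ^ 2 / (2 * Y s)) ^ 2 - 2 * X s ∧
    Y (2 * s) = -(3 * X s ^ 2 / (2 * Y s) * (X (2 * s) - X s) + Y s) := by
  have h := add_double (not_torsion hs) (Y_ne hs)
  rw [← two_smul ℕ (s • Q₀), smul_smul] at h
  exact h.2

lemma X_sub {s t : ℕ} (ht : t ≠ 0) (hst : t < s) :
    X (s - t) = ((Y s + Y t) / (X s - X t)) ^ 2 - X s - X t := by
  have hs : s ≠ 0 := by omega
  have h := add_generic (P := s • Q₀) (R := -(t • Q₀)) (not_torsion hs)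
    (neg_ne_zero.mpr (not_torsion ht)) (by rw [px_neg]; exact X_inj hs ht (by omega))
  have h1 : s • Q₀ + -(t • Q₀) = (s - t) • Q₀ := by
    conv_lhs => rw [show s = (s - t) + t by omega, add_smul]
    simp
  rw [h1, px_neg, py_neg] at h
  have h2 := h.2.1
  show px ((s - t) • Q₀) = ((py (s • Q₀) + py (t • Q₀)) / (px (s • Q₀) - px (t • Q₀))) ^ 2
    - px (s • Q₀) - px (t • Q₀)
  rw [h2]
  ring

lemma addSub_eq {s t : ℕ} (ht : t ≠ 0) (hst : t < s) :
    X (s + t) * X (s - t) * (X s - X t) ^ 2 = (X s * X t) ^ 2 + 8 * (X s + X t) ∧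
    (X (s + t) + X (s - t)) * (X s - X t) ^ 2 = 2 * (X s * X t) * (X s + X t) - 8 := by
  have hs : s ≠ 0 := by omega
  have hx : X s - X t ≠ 0 := sub_ne_zero.mpr (X_inj hs ht (by omega))
  have h1 := (XY_add hs ht (by omega)).1
  have h2 := X_sub ht hst
  have e1 := Y_sq hs
  have e2 := Y_sq ht
  rw [h1, h2]
  constructor
  · have k1 : ((Y s - Y t) / (X s - X t)) ^ 2 - X s - X t
        = ((Y s - Y t) ^ 2 - (X s + X t) * (X s - X t) ^ 2) / (X s - X t) ^ 2 := by
      field_simp; ring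
    have k2 : ((Y s + Y t) / (X s - X t)) ^ 2 - X s - X t
        = ((Y s + Y t) ^ 2 - (X s + X t) * (X s - X t) ^ 2) / (X s - X t) ^ 2 := by
      field_simp; ring
    rw [k1, k2, div_mul_div_comm, div_mul_eq_mul_div, div_eq_iff (by positivity)]
    have k3 : (Y s - Y t) ^ 2 * (Y s + Y t) ^ 2 = (Y s ^ 2 - Y t ^ 2) ^ 2 := by ring
    have k4 : ((Y s - Y t) ^ 2 - (X s + X t) * (X s - X t) ^ 2) *
        ((Y s + Y t) ^ 2 - (X s + X t) * (X s - X t) ^ 2)
        = (Y s ^ 2 - Y t ^ 2) ^ 2 - 2 * (Y s ^ 2 + Y t ^ 2) * ((X s + X t) * (X s - X t) ^ 2)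
          + ((X s + X t) * (X s - X t) ^ 2) ^ 2 := by ring
    rw [k4, e1, e2]
    ring
  · have k1 : (((Y s - Y t) / (X s - X t)) ^ 2 - X s - X t + (((Y s + Y t) / (X s - X t)) ^ 2
        - X s - X t)) * (X s - X t) ^ 2
        = 2 * Y s ^ 2 + 2 * Y t ^ 2 - 2 * (X s + X t) * (X s - X t) ^ 2 := by
      field_simp; ring
    rw [k1, e1, e2]
    ring

end Pool.Agent.MPa67235
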