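import Mathlib
import Pool.Agent.MPa67235.Heights

/-!
# The approximate parallelogram law and the quadratic growth of heights
-/

namespace Pool.Agent.MPa67235

open WeierstrassCurve Height MvPolynomial

/-- the naive height of `m • Q₀` -/
noncomputable def H (m : ℕ) : ℝ := logHeight₁ (X m)

lemma addSubMap_eval (s t u : ℚ) :
    (fun i ↦ (addSubMap E i).eval ![s, t, u])
      = ![s ^ 2 + 8 * t * u, 2 * t * s - 8 * u ^ 2, t ^ 2 - 4 * s * u] := by
  have b2 : E.b₂ = 0 := by simp [E, WeierstrassCurve.b₂]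
  have b4 : E.b₄ = 0 := by simp [E, WeierstrassCurve.b₄]
  have b6 : E.b₆ = -8 := by simp [E, WeierstrassCurve.b₆]; norm_num
  have b8 : E.b₈ = 0 := by simp [E, WeierstrassCurve.b₈]
  funext i
  fin_cases i
  · simp [addSubMap, b2, b4, b6, b8]
  · simp [addSubMap, b2, b4, b6, b8]; ring
  · simp [addSubMap, b2, b4, b6, b8]

lemma pair_ne (x : ℚ) : ![x, (1 : ℚ)] ≠ 0 := by
  intro h
  have := congrFun h 1
  simp at this

/-- approximate parallelogram law for multiples -/
lemma parallelogram : ∃ C : ℝ, ∀ s t : ℕ, t ≠ 0 → t < s →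
    |H (s + t) + H (s - t) - 2 * H s - 2 * H t| ≤ C := by
  obtain ⟨C₁, hC₁⟩ := abs_logHeight_sym2_sub_le ℚ
  obtain ⟨C₂, hC₂⟩ := abs_logHeight_addSubMap_sub_two_mul_logHeight_le E
  refine ⟨C₁ + C₂ + 2 * C₁, ?_⟩
  intro s t ht hst
  have hs : s ≠ 0 := by omega
  have hx : X s - X t ≠ 0 := sub_ne_zero.mpr (X_inj hs ht (by omega))
  obtain ⟨e1, e2⟩ := addSub_eq ht hst
  have a1 := hC₁ (pair_ne (X (s + t))) (pair_ne (X (s - t)))
  have a2 := hC₁ (pair_ne (X s)) (pair_ne (X t))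
  have a3 := hC₂ ![X s * X t, X s * 1 + 1 * X t, 1 * 1]
  rw [addSubMap_eval] at a3
  have key : ![(X s * X t) ^ 2 + 8 * (X s * 1 + 1 * X t) * (1 * 1),
      2 * (X s * 1 + 1 * X t) * (X s * X t) - 8 * (1 * 1) ^ 2,
      (X s * 1 + 1 * X t) ^ 2 - 4 * (X s * X t) * (1 * 1)]
      = ((X s - X t) ^ 2) • ![X (s + t) * X (s - t), X (s + t) * 1 + 1 * X (s - t), 1 * 1] := by
    funext i
    fin_cases i
    · simp
      linear_combination -e1
    · simp
      linear_combination -e2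
    · simp
      ring
  rw [key, logHeight_smul_eq_logHeight _ (pow_ne_zero 2 hx)] at a3
  simp only [H, logHeight₁_eq_logHeight]
  rw [abs_le] at *
  constructor <;> linarith [a1.1, a1.2, a2.1, a2.2, a3.1, a3.2]

lemma duplication : ∃ C : ℝ, ∀ s : ℕ, s ≠ 0 → |H (2 * s) - 4 * H s| ≤ C := by
  obtain ⟨C₁, hC₁⟩ := abs_logHeight_sym2_sub_le ℚ
  obtain ⟨C₂, hC₂⟩ := abs_logHeight_addSubMap_sub_two_mul_logHeight_le E
  refine ⟨C₁ + C₂ + 2 * C₁, ?_⟩
  intro s hs
  have e := px_double (not_torsion hs)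
  have e' : X (2 * s) = X s * (X s ^ 3 + 16) / (4 * (X s ^ 3 - 2)) := by
    rw [← two_smul ℕ (s • Q₀), smul_smul] at e
    exact e
  have hy : X s ^ 3 - 2 ≠ 0 := by rw [← Y_sq hs]; exact pow_ne_zero 2 (Y_ne hs)
  have a2 := hC₁ (pair_ne (X s)) (pair_ne (X s))
  have a3 := hC₂ ![X s * X s, X s * 1 + 1 * X s, 1 * 1]
  rw [addSubMap_eval] at a3
  have one_zero : ![(1 : ℚ), 0] ≠ 0 := by
    intro h
    have := congrFun h 0
    simp at this
  have a1 := hC₁ (pair_ne (X (2 * s))) one_zero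
  have key : ![(X s * X s) ^ 2 + 8 * (X s * 1 + 1 * X s) * (1 * 1),
      2 * (X s * 1 + 1 * X s) * (X s * X s) - 8 * (1 * 1) ^ 2,
      (X s * 1 + 1 * X s) ^ 2 - 4 * (X s * X s) * (1 * 1)]
      = (4 * (X s ^ 3 - 2)) • ![X (2 * s) * 1, X (2 * s) * 0 + 1 * 1, 1 * 0] := by
    funext i
    fin_cases i
    · simp
      rw [e']
      field_simp
      ring
    · simp
      ring
    · simp
      ring
  rw [key, logHeight_smul_eq_logHeight _ (mul_ne_zero (by norm_num) hy)] at a3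
  have z : logHeight ![(1 : ℚ), 0] = 0 := by
    rw [logHeight_swap, ← logHeight₁_eq_logHeight, logHeight₁_zero]
  rw [z] at a1
  simp only [H, logHeight₁_eq_logHeight]
  rw [abs_le] at *
  constructor <;> linarith [a1.1, a1.2, a2.1, a2.2, a3.1, a3.2]

/-- An approximate quadratic function on positive integers is a quadratic function up to
a bounded error. -/
lemma quadratic_of_parallelogram (H : ℕ → ℝ) {C : ℝ}
    (hpar : ∀ s t : ℕ, t ≠ 0 → t < s → |H (s + t) + H (s - t) - 2 * H s - 2 * H t| ≤ C)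
    (hdup : ∀ s : ℕ, s ≠ 0 → |H (2 * s) - 4 * H s| ≤ C) :
    ∃ c C' : ℝ, ∀ m : ℕ, m ≠ 0 → |H m - c * (m : ℝ) ^ 2| ≤ C' := by
  classical
  have hstep : ∀ m : ℕ, m ≠ 0 → ∀ k : ℕ,
      dist (H (2 ^ k * m) / 4 ^ k) (H (2 ^ (k + 1) * m) / 4 ^ (k + 1)) ≤ C / 4 * (1 / 4) ^ k := by
    intro m hm k
    have h := hdup (2 ^ k * m) (by positivity)
    rw [dist_comm, Real.dist_eq]
    have e : H (2 ^ (k + 1) * m) / 4 ^ (k + 1) - H (2 ^ k * m) / 4 ^ k
        = (H (2 * (2 ^ k * m)) - 4 * H (2 ^ k * m)) / 4 ^ (k + 1) := by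
      rw [show 2 ^ (k + 1) * m = 2 * (2 ^ k * m) by ring]
      field_simp
      ring
    rw [e, abs_div, abs_of_pos (show (0 : ℝ) < 4 ^ (k + 1) by positivity), div_le_iff₀ (by positivity)]
    calc _ ≤ C := h
      _ = C / 4 * (1 / 4) ^ k * 4 ^ (k + 1) := by
        rw [one_div, inv_pow]; field_simp; ring
  have hlim : ∀ m : ℕ, ∃ a : ℝ, m ≠ 0 →
      Filter.Tendsto (fun k : ℕ => H (2 ^ k * m) / 4 ^ k) Filter.atTop (nhds a) := by
    intro m
    by_cases hm : m = 0
    · exact ⟨0, fun h => absurd hm h⟩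
    · have hc := cauchySeq_of_le_geometric (1 / 4 : ℝ) (C / 4) (by norm_num) (hstep m hm)
      obtain ⟨a, ha⟩ := cauchySeq_tendsto_of_complete hc
      exact ⟨a, fun _ => ha⟩
  choose A hA using hlim
  have hAH : ∀ m : ℕ, m ≠ 0 → |H m - A m| ≤ C / 4 / (1 - 1 / 4) := by
    intro m hm
    have := dist_le_of_le_geometric_of_tendsto₀ (1 / 4 : ℝ) (C / 4) (by norm_num) (hstep m hm) (hA m hm)
    simpa [Real.dist_eq] using this
  have hApar : ∀ s t : ℕ, t ≠ 0 → t < s → A (s + t) + A (s - t) - 2 * A s - 2 * A t = 0 := by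
    intro s t ht hst
    have h1 := ((((hA (s + t) (by omega)).add (hA (s - t) (by omega))).sub
      ((hA s (by omega)).const_mul 2)).sub ((hA t ht).const_mul 2))
    have h2 : Filter.Tendsto (fun k : ℕ => H (2 ^ k * (s + t)) / 4 ^ k + H (2 ^ k * (s - t)) / 4 ^ k
        - 2 * (H (2 ^ k * s) / 4 ^ k) - 2 * (H (2 ^ k * t) / 4 ^ k)) Filter.atTop (nhds 0) := by
      refine squeeze_zero_norm (a := fun k : ℕ => C * (1 / 4) ^ k) ?_ ?_
      · intro k
        have h3 := hpar (2 ^ k * s) (2 ^ k * t) (by positivity)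
          (by exact (Nat.mul_lt_mul_left (by positivity)).mpr hst)
        have e : H (2 ^ k * (s + t)) / 4 ^ k + H (2 ^ k * (s - t)) / 4 ^ k
            - 2 * (H (2 ^ k * s) / 4 ^ k) - 2 * (H (2 ^ k * t) / 4 ^ k)
            = (H (2 ^ k * s + 2 ^ k * t) + H (2 ^ k * s - 2 ^ k * t) - 2 * H (2 ^ k * s)
              - 2 * H (2 ^ k * t)) / 4 ^ k := by
          rw [mul_add, Nat.mul_sub]
          ring
        rw [Real.norm_eq_abs, e, abs_div, abs_of_pos (show (0 : ℝ) < 4 ^ k by positivity),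
          div_le_iff₀ (by positivity)]
        calc _ ≤ C := h3
          _ = C * (1 / 4) ^ k * 4 ^ k := by
            rw [one_div, inv_pow]; field_simp
      · have := (tendsto_pow_atTop_nhds_zero_of_lt_one (r := (1 / 4 : ℝ)) (by norm_num)
          (by norm_num)).const_mul C
        simpa using this
    exact tendsto_nhds_unique h1 h2
  have hAdup : ∀ s : ℕ, s ≠ 0 → A (2 * s) = 4 * A s := by
    intro s hs
    have h1 := hA (2 * s) (by omega)
    have h2 := ((hA s hs).comp (Filter.tendsto_add_atTop_nat 1)).const_mul 4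
    refine tendsto_nhds_unique h1 (h2.congr ?_)
    intro k
    simp only [Function.comp]
    rw [show 2 ^ (k + 1) * s = 2 ^ k * (2 * s) by ring]
    field_simp
    ring
  have hAsq : ∀ m : ℕ, m ≠ 0 → A m = A 1 * (m : ℝ) ^ 2 ∧ A (m + 1) = A 1 * ((m : ℝ) + 1) ^ 2 := by
    intro m hm
    induction m with
    | zero => exact absurd rfl hm
    | succ m ih =>
      rcases Nat.eq_zero_or_pos m with h0 | hpos
      · subst h0
        constructor
        · norm_num
        · have := hAdup 1 (by norm_num)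
          norm_num at this ⊢
          rw [this]; ring
      · obtain ⟨ih1, ih2⟩ := ih (by omega)
        refine ⟨by push_cast; exact ih2, ?_⟩
        have h := hApar (m + 1) 1 (by norm_num) (by omega)
        rw [show m + 1 - 1 = m by omega, ih1, ih2] at h
        push_cast
        linear_combination h
  refine ⟨A 1, C / 4 / (1 - 1 / 4), ?_⟩
  intro m hm
  rw [← (hAsq m hm).1]
  exact hAH m hm

lemma H_dbl_lower (k : ℕ) : 2 * ((k : ℝ) + 1) * Real.log 2 ≤ H (2 ^ (k + 1)) := by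
  have : Fact (Nat.Prime 2) := ⟨Nat.prime_two⟩
  have hv : padicValRat 2 (X (2 ^ (k + 1))) = -2 * ((k : ℤ) + 1) := dbl_val k
  set q := X (2 ^ (k + 1)) with hq
  have h1 : H (2 ^ (k + 1)) = Real.log ((max q.num.natAbs q.den : ℕ) : ℝ) := by
    unfold H
    rw [Rat.logHeight₁_eq_log_max]
  have h2 : 2 ^ (2 * (k + 1)) ∣ q.den := by
    rw [padicValRat_def] at hv
    have h3 : (2 * (k + 1) : ℕ) ≤ padicValNat 2 q.den := by
      have : (0 : ℤ) ≤ padicValInt 2 q.num := by positivity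
      omega
    exact (padicValNat_dvd_iff_le q.den_nz).mpr h3
  have h3 : 2 ^ (2 * (k + 1)) ≤ q.den := Nat.le_of_dvd q.den_pos h2
  rw [h1]
  calc 2 * ((k : ℝ) + 1) * Real.log 2 = Real.log ((2 : ℝ) ^ (2 * (k + 1))) := by
        rw [Real.log_pow]; push_cast; ring
    _ ≤ Real.log ((max q.num.natAbs q.den : ℕ) : ℝ) := by
        apply Real.log_le_log (by positivity)
        have : (2 ^ (2 * (k + 1)) : ℕ) ≤ max q.num.natAbs q.den := h3.trans (le_max_right _ _)
        exact_mod_cast this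

/-- heights of multiples are quadratic up to a bounded error -/
theorem H_quadratic : ∃ c C : ℝ, 0 < c ∧ ∀ m : ℕ, m ≠ 0 → |H m - c * (m : ℝ) ^ 2| ≤ C := by
  obtain ⟨C₁, h₁⟩ := parallelogram
  obtain ⟨C₂, h₂⟩ := duplication
  obtain ⟨c, C, h⟩ := quadratic_of_parallelogram H (C := max C₁ C₂)
    (fun s t ht hst => (h₁ s t ht hst).trans (le_max_left _ _))
    (fun s hs => (h₂ s hs).trans (le_max_right _ _))
  refine ⟨c, C, ?_, h⟩
  by_contra hc
  push Not at hc
  have hb : ∀ k : ℕ, 2 * ((k : ℝ) + 1) * Real.log 2 ≤ C := by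
    intro k
    have h1 := H_dbl_lower k
    have h2 := (abs_le.mp (h (2 ^ (k + 1)) (by positivity))).2
    have h3 : c * (((2 ^ (k + 1) : ℕ) : ℝ)) ^ 2 ≤ 0 :=
      mul_nonpos_of_nonpos_of_nonneg hc (by positivity)
    linarith
  obtain ⟨k, hk⟩ := exists_nat_gt (C / (2 * Real.log 2))
  have hl : 0 < Real.log 2 := Real.log_pos (by norm_num)
  have h4 := hb k
  rw [div_lt_iff₀ (by positivity)] at hk
  nlinarith

end Pool.Agent.MPa67235
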