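import Mathlib
import Pool.Agent.MPa67235.Heights

/-!
# The orbit and rational expressions along it
-/

namespace Pool.Agent.MPa67235

open MvPolynomial

/-! ### Multipliers -/

def j2 (n : ℕ) : ℕ := n + 2

def j1 : ℕ → ℕ
  | 0 => 3
  | n + 1 => j1 n + j2 n

lemma two_mul_j1 (n : ℕ) : 2 * j1 n = n ^ 2 + 3 * n + 6 := by
  induction n with
  | zero => rfl
  | succ n ih =>
    show 2 * (j1 n + j2 n) = _
    rw [mul_add, ih]
    simp only [j2]
    ring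

def m1 (n : ℕ) : ℕ := 2 ^ n * j1 n
def m2 (n : ℕ) : ℕ := 2 ^ n * j2 n
def m3 (n : ℕ) : ℕ := 2 ^ n

lemma j2_lt_j1 (n : ℕ) : j2 n < j1 n := by
  have := two_mul_j1 n
  simp only [j2]
  nlinarith [sq_nonneg n]

lemma one_lt_j2 (n : ℕ) : 1 < j2 n := by simp [j2]

lemma m3_ne (n : ℕ) : m3 n ≠ 0 := by unfold m3; positivity
lemma m2_ne (n : ℕ) : m2 n ≠ 0 := by
  unfold m2
  have := one_lt_j2 n
  exact Nat.mul_ne_zero (by positivity) (by omega)
lemma m1_ne (n : ℕ) : m1 n ≠ 0 := by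
  unfold m1
  have := one_lt_j2 n
  have := j2_lt_j1 n
  exact Nat.mul_ne_zero (by positivity) (by omega)

lemma m12_ne (n : ℕ) : m1 n ≠ m2 n := by
  unfold m1 m2
  have := j2_lt_j1 n
  intro h
  have := Nat.eq_of_mul_eq_mul_left (by positivity) h
  omega

lemma m13_ne (n : ℕ) : m1 n ≠ m3 n := by
  unfold m1 m3
  have := j2_lt_j1 n
  have := one_lt_j2 n
  intro h
  have h2 : 2 ^ n * j1 n = 2 ^ n * 1 := by rw [h, mul_one]
  have := Nat.eq_of_mul_eq_mul_left (by positivity) h2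
  omega

lemma m23_ne (n : ℕ) : m2 n ≠ m3 n := by
  unfold m2 m3
  have := one_lt_j2 n
  intro h
  have h2 : 2 ^ n * j2 n = 2 ^ n * 1 := by rw [h, mul_one]
  have := Nat.eq_of_mul_eq_mul_left (by positivity) h2
  omega

lemma m1_succ (n : ℕ) : m1 (n + 1) = 2 * (m1 n + m2 n) := by
  simp only [m1, m2, j1]; ring
lemma m2_succ (n : ℕ) : m2 (n + 1) = 2 * (m2 n + m3 n) := by
  simp only [m3, m2, j2]; ring
lemma m3_succ (n : ℕ) : m3 (n + 1) = 2 * m3 n := by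
  simp only [m3]; ring

/-! ### The orbit -/

/-- first affine coordinate of the `n`-th point -/
noncomputable def uu (n : ℕ) : ℚ := X (m2 n) / X (m1 n)
/-- second affine coordinate of the `n`-th point -/
noncomputable def vv (n : ℕ) : ℚ := X (m3 n) / X (m1 n)
/-- third affine coordinate of the `n`-th point -/
noncomputable def kk (n : ℕ) : ℚ := (Y (m1 n) - Y (m3 n)) / (Y (m1 n) - Y (m2 n))

/-- homogeneous coordinates of the `n`-th point -/
noncomputable def pt (n : ℕ) : Fin 4 → ℚ := ![1, uu n, vv n, kk n]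

/-- A sequence is given by a (homogeneous, degree `0`) rational function along the orbit,
with nowhere vanishing denominator. -/
def IsRat (s : ℕ → ℚ) : Prop :=
  ∃ (d : ℕ) (N D : MvPolynomial (Fin 4) ℚ), N.IsHomogeneous d ∧ D.IsHomogeneous d ∧
    ∀ n, eval (pt n) D ≠ 0 ∧ s n = eval (pt n) N / eval (pt n) D

lemma IsRat.congr {s t : ℕ → ℚ} (h : IsRat s) (hst : ∀ n, t n = s n) : IsRat t := by
  obtain ⟨d, N, D, hN, hD, h⟩ := h
  exact ⟨d, N, D, hN, hD, fun n => ⟨(h n).1, by rw [hst]; exact (h n).2⟩⟩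

lemma isRat_const (c : ℚ) : IsRat (fun _ => c) :=
  ⟨0, C c, 1, isHomogeneous_C _ _, isHomogeneous_one _ _, fun n => by simp⟩

lemma IsRat.add {s t : ℕ → ℚ} (hs : IsRat s) (ht : IsRat t) : IsRat (fun n => s n + t n) := by
  obtain ⟨d, N, D, hN, hD, h⟩ := hs
  obtain ⟨d', N', D', hN', hD', h'⟩ := ht
  refine ⟨d + d', N * D' + D * N', D * D', (hN.mul hD').add (hD.mul hN'), hD.mul hD', fun n => ?_⟩
  have h1 := (h n).1
  have h2 := (h' n).1
  refine ⟨by simp [h1, h2], ?_⟩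
  beta_reduce
  rw [(h n).2, (h' n).2]
  simp only [map_add, map_mul]
  rw [div_add_div _ _ h1 h2]

lemma IsRat.mul {s t : ℕ → ℚ} (hs : IsRat s) (ht : IsRat t) : IsRat (fun n => s n * t n) := by
  obtain ⟨d, N, D, hN, hD, h⟩ := hs
  obtain ⟨d', N', D', hN', hD', h'⟩ := ht
  refine ⟨d + d', N * N', D * D', hN.mul hN', hD.mul hD', fun n => ?_⟩
  have h1 := (h n).1
  have h2 := (h' n).1
  refine ⟨by simp [h1, h2], ?_⟩
  beta_reduce
  rw [(h n).2, (h' n).2]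
  simp only [map_mul]
  rw [div_mul_div_comm]

lemma IsRat.neg {s : ℕ → ℚ} (hs : IsRat s) : IsRat (fun n => -s n) :=
  ((isRat_const (-1)).mul hs).congr (fun n => by ring)

lemma IsRat.sub {s t : ℕ → ℚ} (hs : IsRat s) (ht : IsRat t) : IsRat (fun n => s n - t n) :=
  (hs.add ht.neg).congr (fun n => by ring)

lemma IsRat.inv {s : ℕ → ℚ} (hs : IsRat s) (h0 : ∀ n, s n ≠ 0) : IsRat (fun n => (s n)⁻¹) := by
  obtain ⟨d, N, D, hN, hD, h⟩ := hs
  refine ⟨d, D, N, hD, hN, fun n => ?_⟩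
  have h1 := h0 n
  beta_reduce
  rw [(h n).2] at h1 ⊢
  refine ⟨fun h2 => h1 (by rw [h2, zero_div]), by rw [inv_div]⟩

lemma IsRat.div {s t : ℕ → ℚ} (hs : IsRat s) (ht : IsRat t) (h0 : ∀ n, t n ≠ 0) :
    IsRat (fun n => s n / t n) :=
  (hs.mul (ht.inv h0)).congr (fun n => by rw [div_eq_mul_inv])

lemma IsRat.pow {s : ℕ → ℚ} (hs : IsRat s) (k : ℕ) : IsRat (fun n => s n ^ k) := by
  induction k with
  | zero => exact (isRat_const 1).congr (fun n => by simp)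
  | succ k ih => exact (ih.mul hs).congr (fun n => by ring)

lemma isRat_coord (i : Fin 4) : IsRat (fun n => pt n i) :=
  ⟨1, MvPolynomial.X i, MvPolynomial.X 0, isHomogeneous_X _ _, isHomogeneous_X _ _, fun n => by
    simp [pt]⟩

lemma isRat_uu : IsRat uu := (isRat_coord 1).congr (fun n => by simp [pt])
lemma isRat_vv : IsRat vv := (isRat_coord 2).congr (fun n => by simp [pt])
lemma isRat_kk : IsRat kk := (isRat_coord 3).congr (fun n => by simp [pt])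

/-! ### Recovering the normalised coordinates -/

section pointwise

variable {x1 x2 x3 y1 y2 y3 : ℚ}

lemma conic_den (h1 : y1 ^ 2 = x1 ^ 3 - 2) (h2 : y2 ^ 2 = x2 ^ 3 - 2) (h3 : y3 ^ 2 = x3 ^ 3 - 2)
    (hx1 : x1 ≠ 0) (h12 : y1 ≠ y2) :
    ((y1 - y3) / (y1 - y2)) ^ 2 * (1 - (x2 / x1) ^ 3) - (1 - (x3 / x1) ^ 3)
      = 2 * ((y1 - y3) / (y1 - y2)) * y1 * (y2 - y3) / x1 ^ 3 := by
  have h : y1 - y2 ≠ 0 := sub_ne_zero.mpr h12
  have e1 : x1 ^ 3 = y1 ^ 2 + 2 := by linarith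
  have e2 : x2 ^ 3 = y2 ^ 2 + 2 := by linarith
  have e3 : x3 ^ 3 = y3 ^ 2 + 2 := by linarith
  have hx3 : y1 ^ 2 + 2 ≠ 0 := by rw [← e1]; exact pow_ne_zero 3 hx1
  rw [div_pow, div_pow, div_pow, e1, e2, e3]
  field_simp
  ring

lemma conic_num (h1 : y1 ^ 2 = x1 ^ 3 - 2) (h2 : y2 ^ 2 = x2 ^ 3 - 2) (h3 : y3 ^ 2 = x3 ^ 3 - 2)
    (hx1 : x1 ≠ 0) (h12 : y1 ≠ y2) :
    ((y1 - y3) / (y1 - y2)) * (1 - (x2 / x1) ^ 3) - (1 - (x3 / x1) ^ 3)
      = (y1 - y3) * (y2 - y3) / x1 ^ 3 := by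
  have h : y1 - y2 ≠ 0 := sub_ne_zero.mpr h12
  have e1 : x1 ^ 3 = y1 ^ 2 + 2 := by linarith
  have e2 : x2 ^ 3 = y2 ^ 2 + 2 := by linarith
  have e3 : x3 ^ 3 = y3 ^ 2 + 2 := by linarith
  have hx3 : y1 ^ 2 + 2 ≠ 0 := by rw [← e1]; exact pow_ne_zero 3 hx1
  rw [div_pow, div_pow, e1, e2, e3]
  field_simp
  ring

/-- `y₂ / y₁` as a rational function of the coordinates. -/
lemma ratio_formula (h1 : y1 ^ 2 = x1 ^ 3 - 2) (h2 : y2 ^ 2 = x2 ^ 3 - 2)
    (h3 : y3 ^ 2 = x3 ^ 3 - 2) (hx1 : x1 ≠ 0) (hy1 : y1 ≠ 0) (h12 : y1 ≠ y2) (h13 : y1 ≠ y3)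
    (h23 : y2 ≠ y3) :
    ((y1 - y3) / (y1 - y2)) ^ 2 * (1 - (x2 / x1) ^ 3) - (1 - (x3 / x1) ^ 3) ≠ 0 ∧
    y2 / y1 = 1 - 2 * (((y1 - y3) / (y1 - y2)) * (1 - (x2 / x1) ^ 3) - (1 - (x3 / x1) ^ 3)) /
      (((y1 - y3) / (y1 - y2)) ^ 2 * (1 - (x2 / x1) ^ 3) - (1 - (x3 / x1) ^ 3)) := by
  have k12 : y1 - y2 ≠ 0 := sub_ne_zero.mpr h12
  have k13 : y1 - y3 ≠ 0 := sub_ne_zero.mpr h13
  have k23 : y2 - y3 ≠ 0 := sub_ne_zero.mpr h23
  rw [conic_den h1 h2 h3 hx1 h12, conic_num h1 h2 h3 hx1 h12]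
  constructor
  · positivity
  · field_simp
    ring

/-- `x₁³ / (-2)` as a rational function of `r = y₂ / y₁` and `u = x₂ / x₁`. -/
lemma cube_formula (h1 : y1 ^ 2 = x1 ^ 3 - 2) (h2 : y2 ^ 2 = x2 ^ 3 - 2)
    (hx1 : x1 ≠ 0) (hy1 : y1 ≠ 0) (hx12 : x1 ≠ x2) :
    (y2 / y1) ^ 2 - (x2 / x1) ^ 3 ≠ 0 ∧
    x1 ^ 3 / (-2) = (1 - (y2 / y1) ^ 2) / ((y2 / y1) ^ 2 - (x2 / x1) ^ 3) := by
  have hc : x1 ^ 3 - x2 ^ 3 ≠ 0 := by
    intro h
    have h3 : x1 ^ 3 = x2 ^ 3 := by linarith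
    exact hx12 ((Odd.strictMono_pow (R := ℚ) (n := 3) (by decide)).injective h3)
  have hx3 : x1 ^ 3 ≠ 0 := pow_ne_zero 3 hx1
  have hy2 : x1 ^ 3 - 2 ≠ 0 := by rw [← h1]; exact pow_ne_zero 2 hy1
  have e : (y2 / y1) ^ 2 - (x2 / x1) ^ 3 = -2 * (x1 ^ 3 - x2 ^ 3) / (x1 ^ 3 * y1 ^ 2) := by
    rw [div_pow, div_pow, h1, h2]
    field_simp
    ring
  rw [e]
  constructor
  · exact div_ne_zero (mul_ne_zero (by norm_num) hc) (mul_ne_zero hx3 (pow_ne_zero 2 hy1))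
  · rw [div_pow, h1, h2]
    field_simp
    ring

end pointwise

/-! ### Normalised coordinates are rational along the orbit -/

/-- normalised coordinates are rational functions along the orbit -/
def Good (m : ℕ → ℕ) : Prop :=
  IsRat (fun n => X (m n) / X (m1 n)) ∧ IsRat (fun n => Y (m n) / Y (m1 n))

lemma isRat_r : IsRat (fun n => Y (m2 n) / Y (m1 n)) := by
  have h : ∀ n, _ := fun n => ratio_formula (Y_sq (m1_ne n)) (Y_sq (m2_ne n)) (Y_sq (m3_ne n))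
    (X_ne (m1_ne n)) (Y_ne (m1_ne n)) (Y_inj (m1_ne n) (m2_ne n) (m12_ne n))
    (Y_inj (m1_ne n) (m3_ne n) (m13_ne n)) (Y_inj (m2_ne n) (m3_ne n) (m23_ne n))
  have hu : IsRat (fun n => 1 - uu n ^ 3) := (isRat_const 1).sub (isRat_uu.pow 3)
  have hv : IsRat (fun n => 1 - vv n ^ 3) := (isRat_const 1).sub (isRat_vv.pow 3)
  have hd : IsRat (fun n => kk n ^ 2 * (1 - uu n ^ 3) - (1 - vv n ^ 3)) :=
    ((isRat_kk.pow 2).mul hu).sub hv
  have hn : IsRat (fun n => 2 * (kk n * (1 - uu n ^ 3) - (1 - vv n ^ 3))) :=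
    (isRat_const 2).mul ((isRat_kk.mul hu).sub hv)
  have := (isRat_const 1).sub (hn.div hd (fun n => (h n).1))
  exact this.congr (fun n => (h n).2)

lemma isRat_s : IsRat (fun n => Y (m3 n) / Y (m1 n)) := by
  have := (isRat_const 1).sub (isRat_kk.mul ((isRat_const 1).sub isRat_r))
  refine this.congr (fun n => ?_)
  have h1 := Y_ne (m1_ne n)
  have h2 : Y (m1 n) - Y (m2 n) ≠ 0 := sub_ne_zero.mpr (Y_inj (m1_ne n) (m2_ne n) (m12_ne n))
  simp only [kk]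
  field_simp
  ring

lemma isRat_T1 : IsRat (fun n => X (m1 n) ^ 3 / (-2)) := by
  have h : ∀ n, _ := fun n => cube_formula (Y_sq (m1_ne n)) (Y_sq (m2_ne n))
    (X_ne (m1_ne n)) (Y_ne (m1_ne n)) (X_inj (m1_ne n) (m2_ne n) (m12_ne n))
  have := ((isRat_const 1).sub (isRat_r.pow 2)).div ((isRat_r.pow 2).sub (isRat_uu.pow 3))
    (fun n => (h n).1)
  exact this.congr (fun n => (h n).2)

lemma isRat_T2 : IsRat (fun n => X (m2 n) ^ 3 / (-2)) := by
  refine (isRat_T1.mul (isRat_uu.pow 3)).congr (fun n => ?_)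
  have h1 := X_ne (m1_ne n)
  simp only [uu]
  field_simp

lemma isRat_T3 : IsRat (fun n => X (m3 n) ^ 3 / (-2)) := by
  refine (isRat_T1.mul (isRat_vv.pow 3)).congr (fun n => ?_)
  have h1 := X_ne (m1_ne n)
  simp only [vv]
  field_simp

/-- `θ = y₁² / x₁³` -/
lemma isRat_theta : IsRat (fun n => Y (m1 n) ^ 2 / X (m1 n) ^ 3) := by
  have h1 : ∀ n, X (m1 n) ^ 3 / (-2) ≠ 0 := fun n =>
    div_ne_zero (pow_ne_zero 3 (X_ne (m1_ne n))) (by norm_num)
  refine ((isRat_T1.add (isRat_const 1)).div isRat_T1 h1).congr (fun n => ?_)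
  have h2 := X_ne (m1_ne n)
  rw [Y_sq (m1_ne n)]
  field_simp
  ring

lemma theta_ne (n : ℕ) : Y (m1 n) ^ 2 / X (m1 n) ^ 3 ≠ 0 :=
  div_ne_zero (pow_ne_zero 2 (Y_ne (m1_ne n))) (pow_ne_zero 3 (X_ne (m1_ne n)))

lemma good_m1 : Good m1 :=
  ⟨(isRat_const 1).congr (fun n => div_self (X_ne (m1_ne n))),
    (isRat_const 1).congr (fun n => div_self (Y_ne (m1_ne n)))⟩

lemma good_m2 : Good m2 := ⟨isRat_uu, isRat_r⟩

lemma good_m3 : Good m3 := ⟨isRat_vv, isRat_s⟩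

lemma Good.add {m m' : ℕ → ℕ} (h : Good m) (h' : Good m') (hm : ∀ n, m n ≠ 0)
    (hm' : ∀ n, m' n ≠ 0) (hne : ∀ n, m n ≠ m' n) : Good (fun n => m n + m' n) := by
  obtain ⟨hx, hy⟩ := h
  obtain ⟨hx', hy'⟩ := h'
  have hden : ∀ n, X (m n) / X (m1 n) - X (m' n) / X (m1 n) ≠ 0 := by
    intro n
    have h1 := X_ne (m1_ne n)
    have h2 : X (m n) - X (m' n) ≠ 0 := sub_ne_zero.mpr (X_inj (hm n) (hm' n) (hne n))
    rw [← sub_div]
    exact div_ne_zero h2 h1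
  have hsl : IsRat (fun n => (Y (m n) / Y (m1 n) - Y (m' n) / Y (m1 n)) /
      (X (m n) / X (m1 n) - X (m' n) / X (m1 n))) := (hy.sub hy').div (hx.sub hx') hden
  have hX : IsRat (fun n => X (m n + m' n) / X (m1 n)) := by
    refine (((isRat_theta.mul (hsl.pow 2)).sub hx).sub hx').congr (fun n => ?_)
    have h1 := X_ne (m1_ne n)
    have h1' := Y_ne (m1_ne n)
    have h2 : X (m n) - X (m' n) ≠ 0 := sub_ne_zero.mpr (X_inj (hm n) (hm' n) (hne n))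
    rw [(XY_add (hm n) (hm' n) (hne n)).1, ← sub_div, ← sub_div]
    field_simp
  refine ⟨hX, ?_⟩
  refine (((hsl.mul (hX.sub hx)).add hy).neg).congr (fun n => ?_)
  have h1 := X_ne (m1_ne n)
  have h1' := Y_ne (m1_ne n)
  have h2 : X (m n) - X (m' n) ≠ 0 := sub_ne_zero.mpr (X_inj (hm n) (hm' n) (hne n))
  rw [(XY_add (hm n) (hm' n) (hne n)).2, ← sub_div, ← sub_div, ← sub_div]
  field_simp

lemma Good.double {m : ℕ → ℕ} (h : Good m) (hm : ∀ n, m n ≠ 0) : Good (fun n => 2 * m n) := by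
  obtain ⟨hx, hy⟩ := h
  have hden : ∀ n, 2 * (Y (m n) / Y (m1 n)) ≠ 0 := by
    intro n
    have h1 := Y_ne (m1_ne n)
    have h2 := Y_ne (hm n)
    positivity
  have hsl : IsRat (fun n => (3 * (X (m n) / X (m1 n)) ^ 2) / (2 * (Y (m n) / Y (m1 n))) ) :=
    ((isRat_const 3).mul (hx.pow 2)).div ((isRat_const 2).mul hy) hden
  have hX : IsRat (fun n => X (2 * m n) / X (m1 n)) := by
    refine (((isRat_theta.inv theta_ne).mul (hsl.pow 2)).sub ((isRat_const 2).mul hx)).congr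
      (fun n => ?_)
    have h1 := X_ne (m1_ne n)
    have h1' := Y_ne (m1_ne n)
    have h2 := Y_ne (hm n)
    rw [(XY_double (hm n)).1]
    field_simp
  refine ⟨hX, ?_⟩
  refine (((((isRat_theta.inv theta_ne).mul hsl).mul (hX.sub hx)).add hy).neg).congr
    (fun n => ?_)
  have h1 := X_ne (m1_ne n)
  have h1' := Y_ne (m1_ne n)
  have h2 := Y_ne (hm n)
  rw [(XY_double (hm n)).2, ← sub_div]
  field_simp

lemma good_m1_succ : Good (fun n => m1 (n + 1)) := by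
  have h := (good_m1.add good_m2 m1_ne m2_ne m12_ne).double
    (fun n => by have := m1_ne n; omega)
  exact ⟨h.1.congr (fun n => by beta_reduce; rw [m1_succ]), h.2.congr (fun n => by beta_reduce; rw [m1_succ])⟩

lemma good_m2_succ : Good (fun n => m2 (n + 1)) := by
  have h := (good_m2.add good_m3 m2_ne m3_ne m23_ne).double
    (fun n => by have := m2_ne n; omega)
  exact ⟨h.1.congr (fun n => by beta_reduce; rw [m2_succ]), h.2.congr (fun n => by beta_reduce; rw [m2_succ])⟩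

lemma good_m3_succ : Good (fun n => m3 (n + 1)) := by
  have h := good_m3.double m3_ne
  exact ⟨h.1.congr (fun n => by beta_reduce; rw [m3_succ]), h.2.congr (fun n => by beta_reduce; rw [m3_succ])⟩

lemma isRat_uu_succ : IsRat (fun n => uu (n + 1)) := by
  refine (good_m2_succ.1.div good_m1_succ.1
    (fun n => div_ne_zero (X_ne (m1_ne _)) (X_ne (m1_ne n)))).congr (fun n => ?_)
  have h1 := X_ne (m1_ne n)
  have h2 := X_ne (m1_ne (n + 1))
  simp only [uu]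
  field_simp

lemma isRat_vv_succ : IsRat (fun n => vv (n + 1)) := by
  refine (good_m3_succ.1.div good_m1_succ.1
    (fun n => div_ne_zero (X_ne (m1_ne _)) (X_ne (m1_ne n)))).congr (fun n => ?_)
  have h1 := X_ne (m1_ne n)
  have h2 := X_ne (m1_ne (n + 1))
  simp only [vv]
  field_simp

lemma isRat_kk_succ : IsRat (fun n => kk (n + 1)) := by
  have hne : ∀ n, Y (m1 (n + 1)) / Y (m1 n) - Y (m2 (n + 1)) / Y (m1 n) ≠ 0 := by
    intro n
    rw [← sub_div]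
    exact div_ne_zero (sub_ne_zero.mpr (Y_inj (m1_ne _) (m2_ne _) (m12_ne _))) (Y_ne (m1_ne n))
  refine ((good_m1_succ.2.sub good_m3_succ.2).div (good_m1_succ.2.sub good_m2_succ.2) hne).congr
    (fun n => ?_)
  have h1 := Y_ne (m1_ne n)
  have h2 : Y (m1 (n + 1)) - Y (m2 (n + 1)) ≠ 0 :=
    sub_ne_zero.mpr (Y_inj (m1_ne _) (m2_ne _) (m12_ne _))
  simp only [kk]
  rw [← sub_div, ← sub_div]
  field_simp

/-- The next point of the orbit is a polynomial function of the previous one. -/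
theorem exists_next : ∃ (d : ℕ) (T : Fin 4 → MvPolynomial (Fin 4) ℚ),
    (∀ i, (T i).IsHomogeneous d) ∧
    ∀ n, ∃ c : ℚ, c ≠ 0 ∧ ∀ i, eval (pt n) (T i) = c * pt (n + 1) i := by
  obtain ⟨d1, N1, D1, hN1, hD1, h1⟩ := isRat_uu_succ
  obtain ⟨d2, N2, D2, hN2, hD2, h2⟩ := isRat_vv_succ
  obtain ⟨d3, N3, D3, hN3, hD3, h3⟩ := isRat_kk_succ
  refine ⟨d1 + d2 + d3, ![D1 * D2 * D3, N1 * D2 * D3, D1 * N2 * D3, D1 * D2 * N3], ?_, ?_⟩
  · intro i
    fin_cases i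
    · exact (hD1.mul hD2).mul hD3
    · exact (hN1.mul hD2).mul hD3
    · exact (hD1.mul hN2).mul hD3
    · exact (hD1.mul hD2).mul hN3
  · intro n
    obtain ⟨a1, b1⟩ := h1 n
    obtain ⟨a2, b2⟩ := h2 n
    obtain ⟨a3, b3⟩ := h3 n
    refine ⟨eval (pt n) D1 * eval (pt n) D2 * eval (pt n) D3,
      mul_ne_zero (mul_ne_zero a1 a2) a3, ?_⟩
    intro i
    beta_reduce at b1 b2 b3
    fin_cases i
    · show eval (pt n) (D1 * D2 * D3) = _ * 1
      simp only [map_mul, mul_one]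
    · show eval (pt n) (N1 * D2 * D3) = _ * uu (n + 1)
      rw [b1]
      simp only [map_mul]
      field_simp
    · show eval (pt n) (D1 * N2 * D3) = _ * vv (n + 1)
      rw [b2]
      simp only [map_mul]
      field_simp
    · show eval (pt n) (D1 * D2 * N3) = _ * kk (n + 1)
      rw [b3]
      simp only [map_mul]
      field_simp

end Pool.Agent.MPa67235
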