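import Mathlib
import Pool.Agent.MPa67235.Orbit
import Pool.Agent.MPa67235.Canonical

/-!
# Growth of the heights along the orbit
-/

namespace Pool.Agent.MPa67235

open MvPolynomial Height

lemma logHeight_four_le (u v k : ℚ) :
    logHeight ![1, u, v, k] ≤ logHeight₁ u + logHeight₁ v + logHeight₁ k := by
  have hne : ∀ q : ℚ, ![q, (1 : ℚ)] ≠ 0 := pair_ne
  have hprod : (fun a : Fin 2 × Fin 2 ↦ ![v, 1] a.1 * ![k, 1] a.2) ≠ 0 := by
    intro h
    have := congrFun h (1, 1)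
    simp at this
  have h1 := logHeight_fun_mul_eq (hne v) (hne k)
  have h2 := logHeight_fun_mul_eq (hne u) hprod
  rw [h1] at h2
  let f : Fin 4 → Fin 2 × (Fin 2 × Fin 2) := ![(1, 1, 1), (0, 1, 1), (1, 0, 1), (1, 1, 0)]
  have h3 := logHeight_comp_le f
    (fun a : Fin 2 × (Fin 2 × Fin 2) ↦ ![u, 1] a.1 * (![v, 1] a.2.1 * ![k, 1] a.2.2))
  have h4 : ((fun a : Fin 2 × (Fin 2 × Fin 2) ↦ ![u, 1] a.1 * (![v, 1] a.2.1 * ![k, 1] a.2.2)) ∘ f)
      = ![1, u, v, k] := by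
    funext i
    fin_cases i <;> simp [f]
  rw [h4, h2] at h3
  rw [logHeight₁_eq_logHeight, logHeight₁_eq_logHeight, logHeight₁_eq_logHeight]
  linarith

/-- heights of sequences given by rational functions are bounded linearly -/
lemma IsRat.height_le {s : ℕ → ℚ} (h : IsRat s) :
    ∃ C e : ℝ, 0 ≤ e ∧ ∀ n, logHeight₁ (s n) ≤ C + e * logHeight (pt n) := by
  obtain ⟨d, N, D, hN, hD, h⟩ := h
  have hom : ∀ i, (![N, D] i).IsHomogeneous d := by
    intro i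
    fin_cases i
    · exact hN
    · exact hD
  obtain ⟨C, hC⟩ := logHeight_eval_le' hom
  refine ⟨C, d, by positivity, fun n => ?_⟩
  have h1 := hC (pt n)
  have h2 : (fun j => eval (pt n) (![N, D] j)) = ![eval (pt n) N, eval (pt n) D] := by
    funext i
    fin_cases i <;> rfl
  rw [h2, ← logHeight₁_div_eq_logHeight, ← (h n).2] at h1
  exact h1

lemma H_nonneg (m : ℕ) : 0 ≤ H m := zero_le_logHeight₁ _

/-- height of the y-coordinate in terms of the x-coordinate -/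
lemma logHeight_Y_le : ∃ C : ℝ, ∀ m : ℕ, m ≠ 0 → logHeight₁ (Y m) ≤ 2 * H m + C := by
  refine ⟨totalWeight ℚ * Real.log 2 + logHeight₁ (2 : ℚ), fun m hm => ?_⟩
  have h1 := logHeight₁_pow (Y m) 2
  rw [Y_sq hm] at h1
  have h2 := logHeight₁_sub_le (X m ^ 3) 2
  have h3 := logHeight₁_pow (X m) 3
  have h4 : (0 : ℝ) ≤ totalWeight ℚ * Real.log 2 := by positivity
  have h5 := zero_le_logHeight₁ (2 : ℚ)
  have h6 := H_nonneg m
  unfold H at h6 ⊢
  push_cast at h1 h3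
  nlinarith

lemma m2_le_m1 (n : ℕ) : m2 n ≤ m1 n := by
  unfold m1 m2
  exact Nat.mul_le_mul_left _ (j2_lt_j1 n).le

lemma m3_le_m1 (n : ℕ) : m3 n ≤ m1 n := by
  unfold m1 m3
  have := j2_lt_j1 n
  have := one_lt_j2 n
  exact Nat.le_mul_of_pos_right _ (by omega)

/-- the heights along the orbit grow like the square of `m1` -/
theorem height_growth : ∃ a b C : ℝ, 0 < a ∧ 0 < b ∧ ∀ n,
    a * (m1 n : ℝ) ^ 2 - C ≤ logHeight (pt n) ∧ logHeight (pt n) ≤ b * (m1 n : ℝ) ^ 2 + C := by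
  obtain ⟨c, C₀, hc, hH⟩ := H_quadratic
  obtain ⟨C₁, hY⟩ := logHeight_Y_le
  obtain ⟨C₂, e, he, hT⟩ := isRat_T1.height_le
  have hup : ∀ m n : ℕ, m ≠ 0 → m ≤ m1 n → H m ≤ c * (m1 n : ℝ) ^ 2 + C₀ := by
    intro m n hm hmn
    have h1 := (abs_le.mp (hH m hm)).2
    have h2 : (m : ℝ) ^ 2 ≤ (m1 n : ℝ) ^ 2 := by gcongr
    nlinarith
  -- the upper bound
  have hU : ∀ n, logHeight (pt n) ≤ 12 * (c * (m1 n : ℝ) ^ 2) + (12 * C₀ + 4 * C₁
      + 2 * (totalWeight ℚ * Real.log 2)) := by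
    intro n
    have h1 := logHeight_four_le (uu n) (vv n) (kk n)
    have b1 := hup (m1 n) n (m1_ne n) le_rfl
    have b2 := hup (m2 n) n (m2_ne n) (m2_le_m1 n)
    have b3 := hup (m3 n) n (m3_ne n) (m3_le_m1 n)
    have hu : logHeight₁ (uu n) ≤ H (m2 n) + H (m1 n) := by
      unfold uu H
      rw [div_eq_mul_inv]
      exact (logHeight₁_mul_le _ _).trans (by rw [logHeight₁_inv])
    have hv : logHeight₁ (vv n) ≤ H (m3 n) + H (m1 n) := by
      unfold vv H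
      rw [div_eq_mul_inv]
      exact (logHeight₁_mul_le _ _).trans (by rw [logHeight₁_inv])
    have hk : logHeight₁ (kk n) ≤ (totalWeight ℚ * Real.log 2 + logHeight₁ (Y (m1 n))
        + logHeight₁ (Y (m3 n))) + (totalWeight ℚ * Real.log 2 + logHeight₁ (Y (m1 n))
        + logHeight₁ (Y (m2 n))) := by
      unfold kk
      rw [div_eq_mul_inv]
      refine (logHeight₁_mul_le _ _).trans ?_
      rw [logHeight₁_inv]
      exact add_le_add (logHeight₁_sub_le _ _) (logHeight₁_sub_le _ _)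
    have y1 := hY (m1 n) (m1_ne n)
    have y2 := hY (m2 n) (m2_ne n)
    have y3 := hY (m3 n) (m3_ne n)
    show logHeight ![1, uu n, vv n, kk n] ≤ _
    nlinarith
  -- the lower bound
  have hL : ∀ n, 3 * (c * (m1 n : ℝ) ^ 2 - C₀) - logHeight₁ (-2 : ℚ) - C₂
      ≤ e * logHeight (pt n) := by
    intro n
    have h1 := hT n
    have h2 := (abs_le.mp (hH (m1 n) (m1_ne n))).1
    have h3 : logHeight₁ (X (m1 n) ^ 3) ≤ logHeight₁ (X (m1 n) ^ 3 / (-2)) + logHeight₁ (-2 : ℚ) := by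
      have := logHeight₁_mul_le (X (m1 n) ^ 3 / (-2)) (-2 : ℚ)
      rwa [div_mul_cancel₀ _ (by norm_num : (-2 : ℚ) ≠ 0)] at this
    rw [logHeight₁_pow] at h3
    unfold H at h2
    push_cast at h3
    linarith
  have he' : 0 < e + 1 := by linarith
  refine ⟨3 * c / (e + 1), 12 * c, max (12 * C₀ + 4 * C₁ + 2 * (totalWeight ℚ * Real.log 2))
    ((3 * C₀ + logHeight₁ (-2 : ℚ) + C₂) / (e + 1)), by positivity, by positivity, fun n => ⟨?_, ?_⟩⟩
  · have h1 := hL n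
    have h2 := logHeight_nonneg (pt n)
    have h3 : (3 * c * (m1 n : ℝ) ^ 2 - (3 * C₀ + logHeight₁ (-2 : ℚ) + C₂)) / (e + 1)
        ≤ logHeight (pt n) := by
      rw [div_le_iff₀ he']
      nlinarith
    calc 3 * c / (e + 1) * (m1 n : ℝ) ^ 2 - max (12 * C₀ + 4 * C₁ + 2 * (totalWeight ℚ * Real.log 2))
          ((3 * C₀ + logHeight₁ (-2 : ℚ) + C₂) / (e + 1))
        ≤ 3 * c / (e + 1) * (m1 n : ℝ) ^ 2 - (3 * C₀ + logHeight₁ (-2 : ℚ) + C₂) / (e + 1) := by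
          gcongr
          exact le_max_right _ _
      _ = (3 * c * (m1 n : ℝ) ^ 2 - (3 * C₀ + logHeight₁ (-2 : ℚ) + C₂)) / (e + 1) := by ring
      _ ≤ _ := h3
  · have h1 := hU n
    calc logHeight (pt n) ≤ 12 * (c * (m1 n : ℝ) ^ 2) + (12 * C₀ + 4 * C₁
      + 2 * (totalWeight ℚ * Real.log 2)) := h1
      _ ≤ 12 * c * (m1 n : ℝ) ^ 2 + max (12 * C₀ + 4 * C₁ + 2 * (totalWeight ℚ * Real.log 2))
        ((3 * C₀ + logHeight₁ (-2 : ℚ) + C₂) / (e + 1)) := by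
          rw [mul_assoc]
          gcongr
          exact le_max_left _ _

end Pool.Agent.MPa67235
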