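import Mathlib

/-!
# A height bound for roots of monic polynomials over `ℚ`
-/

namespace Pool.Agent.MPa67235

open MvPolynomial Height

/-- The tuple consisting of `1` and `γ` has height at most the sum of the heights. -/
lemma logHeight_option_le {D : ℕ} (γ : Fin D → ℚ) :
    logHeight (fun o : Option (Fin D) ↦ o.elim 1 γ) ≤ ∑ i, logHeight₁ (γ i) := by
  have hne : ∀ a : Fin D, ![γ a, (1 : ℚ)] ≠ 0 := by
    intro a h
    have := congrFun h 1
    simp at this
  have h1 := logHeight_fun_prod_eq (x := fun a : Fin D => ![γ a, (1 : ℚ)]) hne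
  let f : Option (Fin D) → (Fin D → Fin 2) := fun o =>
    o.elim (fun _ => 1) (fun i => fun a => if a = i then 0 else 1)
  have h2 := logHeight_comp_le f (fun I : Fin D → Fin 2 ↦ ∏ a, ![γ a, (1 : ℚ)] (I a))
  have h3 : ((fun I : Fin D → Fin 2 ↦ ∏ a, ![γ a, (1 : ℚ)] (I a)) ∘ f)
      = (fun o : Option (Fin D) ↦ o.elim 1 γ) := by
    funext o
    cases o with
    | none => simp [f]
    | some i =>
      simp only [Function.comp, f, Option.elim]
      rw [Finset.prod_eq_single i]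
      · simp
      · intro b _ hb
        simp [hb]
      · intro h; exact absurd (Finset.mem_univ i) h
  rw [h3, h1] at h2
  refine h2.trans (le_of_eq ?_)
  refine Finset.sum_congr rfl (fun i _ => ?_)
  rw [logHeight₁_eq_logHeight]

/-- The tuple of powers `1, s, …, s^(D-1)`. -/
lemma logHeight_powers_le (D : ℕ) (hD : 0 < D) :
    ∃ C : ℝ, ∀ s : ℚ, logHeight (fun i : Fin D ↦ s ^ (i : ℕ)) ≤ C + (D - 1 : ℝ) * logHeight₁ s := by
  have hom : ∀ i : Fin D, (MvPolynomial.X (0 : Fin 2) ^ (i : ℕ) *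
      MvPolynomial.X (1 : Fin 2) ^ (D - 1 - (i : ℕ)) : MvPolynomial (Fin 2) ℚ).IsHomogeneous (D - 1) := by
    intro i
    have := (isHomogeneous_X_pow (R := ℚ) (0 : Fin 2) (i : ℕ)).mul
      (isHomogeneous_X_pow (R := ℚ) (1 : Fin 2) (D - 1 - (i : ℕ)))
    rwa [show (i : ℕ) + (D - 1 - (i : ℕ)) = D - 1 by have := i.isLt; omega] at this
  obtain ⟨C, hC⟩ := logHeight_eval_le' hom
  refine ⟨C, fun s => ?_⟩
  have h1 := hC ![s, 1]
  have h2 : (fun j : Fin D => eval ![s, 1] (MvPolynomial.X (0 : Fin 2) ^ (j : ℕ) *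
      MvPolynomial.X (1 : Fin 2) ^ (D - 1 - (j : ℕ)) : MvPolynomial (Fin 2) ℚ))
      = (fun i : Fin D ↦ s ^ (i : ℕ)) := by
    funext i
    simp
  rw [h2, ← logHeight₁_eq_logHeight] at h1
  rw [Nat.cast_sub (by omega)] at h1
  simpa using h1

/-- The height of a root of a monic polynomial is bounded by the heights of the coefficients. -/
theorem root_height (D : ℕ) (hD : 0 < D) :
    ∃ C : ℝ, ∀ (s : ℚ) (γ : Fin D → ℚ), s ^ D = ∑ i, γ i * s ^ (i : ℕ) →
      logHeight₁ s ≤ C + ∑ i, logHeight₁ (γ i) := by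
  obtain ⟨C₁, h₁⟩ := logHeight_powers_le D hD
  let i₀ : Fin D := ⟨0, hD⟩
  let p : Fin 2 → MvPolynomial (Option (Fin D) × Fin D) ℚ :=
    ![∑ i, MvPolynomial.X (some i, i), MvPolynomial.X (none, i₀)]
  have hom : ∀ j, (p j).IsHomogeneous 1 := by
    intro j
    fin_cases j
    · show (∑ i : Fin D, (MvPolynomial.X (some i, i) :
        MvPolynomial (Option (Fin D) × Fin D) ℚ)).IsHomogeneous 1
      exact IsHomogeneous.sum Finset.univ _ 1 (fun i _ => isHomogeneous_X ℚ _)
    · exact isHomogeneous_X ℚ _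
  obtain ⟨C₂, h₂⟩ := logHeight_eval_le' hom
  refine ⟨C₁ + C₂, fun s γ hs => ?_⟩
  have hx : (fun i : Fin D ↦ s ^ (i : ℕ)) ≠ 0 := by
    intro h
    have := congrFun h i₀
    simp [i₀] at this
  have hz : (fun o : Option (Fin D) ↦ o.elim (1 : ℚ) γ) ≠ 0 := by
    intro h
    have := congrFun h none
    simp at this
  have h3 := logHeight_fun_mul_eq hz hx
  have h4 := h₂ (fun a : Option (Fin D) × Fin D ↦ (a.1.elim (1 : ℚ) γ) * s ^ (a.2 : ℕ))
  rw [h3] at h4
  have h5 : (fun j => eval (fun a : Option (Fin D) × Fin D ↦ (a.1.elim (1 : ℚ) γ) * s ^ (a.2 : ℕ)) (p j))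
      = ![s ^ D, 1] := by
    funext j
    fin_cases j
    · simp [p, hs]
    · simp [p, i₀]
  rw [h5, ← logHeight₁_eq_logHeight, logHeight₁_pow] at h4
  have h6 := h₁ s
  have h7 := logHeight_option_le γ
  push_cast at h4
  nlinarith

end Pool.Agent.MPa67235
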