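import Mathlib
import Pool.Agent.MPa67235.Root

/-!
# The ultrapower of `ℚ` and subfields of bounded height
-/

namespace Pool.Agent.MPa67235

open Height Filter

/-- ultrapower of `ℚ` -/
abbrev Kst : Type := ((hyperfilter ℕ : Filter ℕ)).Germ ℚ

noncomputable instance : Field Kst := Germ.instField

/-- class of a sequence -/
noncomputable def cl : (ℕ → ℚ) →+* Kst := Germ.coeRingHom _

lemma cl_surj (x : Kst) : ∃ s, cl s = x := by
  induction x using Germ.inductionOn with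
  | h f => exact ⟨f, rfl⟩

lemma cl_eq_iff {s t : ℕ → ℚ} : cl s = cl t ↔ ∀ᶠ n in (hyperfilter ℕ : Filter ℕ), s n = t n := by
  exact Germ.coe_eq

lemma cl_inv (s : ℕ → ℚ) : cl (fun n => (s n)⁻¹) = (cl s)⁻¹ := rfl

/-- elements whose height is bounded by a multiple of `1 + g` -/
noncomputable def bddField (g : ℕ → ℝ) (hg : ∀ n, 0 ≤ g n) : Subfield Kst where
  carrier := {x | ∃ s : ℕ → ℚ, cl s = x ∧ ∃ C : ℝ, 0 ≤ C ∧
    ∀ᶠ n in (hyperfilter ℕ : Filter ℕ), logHeight₁ (s n) ≤ C * (1 + g n)}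
  mul_mem' := by
    rintro _ _ ⟨s, rfl, C, hC, hs⟩ ⟨t, rfl, C', hC', ht⟩
    refine ⟨s * t, map_mul _ _ _, C + C', by positivity, ?_⟩
    filter_upwards [hs, ht] with n h1 h2
    have := logHeight₁_mul_le (s n) (t n)
    show logHeight₁ (s n * t n) ≤ _
    linarith
  one_mem' := ⟨1, map_one _, 0, le_rfl, by
    filter_upwards with n
    show logHeight₁ (1 : ℚ) ≤ _
    rw [logHeight₁_one]; simp⟩
  add_mem' := by
    rintro _ _ ⟨s, rfl, C, hC, hs⟩ ⟨t, rfl, C', hC', ht⟩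
    refine ⟨s + t, map_add _ _ _, C + C' + totalWeight ℚ * Real.log 2, by positivity, ?_⟩
    filter_upwards [hs, ht] with n h1 h2
    have := logHeight₁_add_le (s n) (t n)
    show logHeight₁ (s n + t n) ≤ _
    have h3 := hg n
    have h4 : (0 : ℝ) ≤ totalWeight ℚ * Real.log 2 := by positivity
    nlinarith
  zero_mem' := ⟨0, map_zero _, 0, le_rfl, by
    filter_upwards with n
    show logHeight₁ (0 : ℚ) ≤ _
    rw [logHeight₁_zero]; simp⟩
  neg_mem' := by
    rintro _ ⟨s, rfl, C, hC, hs⟩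
    refine ⟨-s, map_neg _ _, C, hC, ?_⟩
    filter_upwards [hs] with n h1
    show logHeight₁ (-(s n)) ≤ _
    rw [logHeight₁_neg]; exact h1
  inv_mem' := by
    rintro _ ⟨s, rfl, C, hC, hs⟩
    refine ⟨fun n => (s n)⁻¹, cl_inv s, C, hC, ?_⟩
    filter_upwards [hs] with n h1
    rw [logHeight₁_inv]; exact h1

lemma mem_bddField {g : ℕ → ℝ} {hg : ∀ n, 0 ≤ g n} {x : Kst} : x ∈ bddField g hg ↔
    ∃ s : ℕ → ℚ, cl s = x ∧ ∃ C : ℝ, 0 ≤ C ∧
    ∀ᶠ n in (hyperfilter ℕ : Filter ℕ), logHeight₁ (s n) ≤ C * (1 + g n) := Iff.rfl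

lemma cl_mem_bddField {g : ℕ → ℝ} {hg : ∀ n, 0 ≤ g n} {s : ℕ → ℚ} (h : cl s ∈ bddField g hg) :
    ∃ C : ℝ, 0 ≤ C ∧ ∀ᶠ n in (hyperfilter ℕ : Filter ℕ), logHeight₁ (s n) ≤ C * (1 + g n) := by
  obtain ⟨t, hst, C, hC, ht⟩ := mem_bddField.mp h
  refine ⟨C, hC, ?_⟩
  filter_upwards [cl_eq_iff.mp hst, ht] with n h1 h2
  rw [← h1]; exact h2

lemma bddField_mono {g g' : ℕ → ℝ} {hg : ∀ n, 0 ≤ g n} {hg' : ∀ n, 0 ≤ g' n}
    (h : ∀ n, g n ≤ g' n) : bddField g hg ≤ bddField g' hg' := by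
  intro x hx
  obtain ⟨s, hs, C, hC, hb⟩ := mem_bddField.mp hx
  refine mem_bddField.mpr ⟨s, hs, C, hC, ?_⟩
  filter_upwards [hb] with n h1
  have := h n
  nlinarith

/-- `bddField` is algebraically closed in the ultrapower. -/
lemma mem_of_isAlgebraic {g : ℕ → ℝ} {hg : ∀ n, 0 ≤ g n} {x : Kst}
    (hx : IsAlgebraic (bddField g hg) x) : x ∈ bddField g hg := by
  classical
  set F := bddField g hg with hF
  obtain ⟨s, rfl⟩ := cl_surj x
  have hint : IsIntegral F (cl s) := hx.isIntegral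
  set p := minpoly F (cl s) with hp
  have hmon : p.Monic := minpoly.monic hint
  have hpos : 0 < p.natDegree := minpoly.natDegree_pos hint
  have haeval : Polynomial.aeval (cl s) p = 0 := minpoly.aeval F (cl s)
  set D := p.natDegree with hD
  -- representatives of the coefficients
  have hrep : ∀ i : ℕ, ∃ γ : ℕ → ℚ, cl γ = ((p.coeff i : F) : Kst) ∧ ∃ C : ℝ, 0 ≤ C ∧
    ∀ᶠ n in (hyperfilter ℕ : Filter ℕ), logHeight₁ (γ n) ≤ C * (1 + g n) :=
    fun i => mem_bddField.mp (p.coeff i).2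
  choose γ hγ Cγ hCγ hγb using hrep
  obtain ⟨C₀, hC₀⟩ := root_height D hpos
  refine mem_bddField.mpr ⟨s, rfl, |C₀| + ∑ i : Fin D, Cγ i, by
    have : 0 ≤ ∑ i : Fin D, Cγ i := Finset.sum_nonneg (fun i _ => hCγ i)
    positivity, ?_⟩
  -- the relation
  have hrel : cl (s ^ D) = cl (fun n => ∑ i : Fin D, (-γ i n) * s n ^ (i : ℕ)) := by
    have h1 : cl (fun n => ∑ i : Fin D, (-γ i n) * s n ^ (i : ℕ))
        = ∑ i : Fin D, (-(cl (γ i))) * (cl s) ^ (i : ℕ) := by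
      have : (fun n => ∑ i : Fin D, (-γ i n) * s n ^ (i : ℕ))
          = ∑ i : Fin D, (-(γ i)) * s ^ (i : ℕ) := by
        funext n
        simp [Finset.sum_apply]
      rw [this, map_sum]
      refine Finset.sum_congr rfl (fun i _ => ?_)
      rw [map_mul, map_neg, map_pow]
    rw [h1, map_pow]
    rw [Polynomial.aeval_eq_sum_range] at haeval
    rw [Finset.sum_range_succ] at haeval
    have h2 : p.coeff p.natDegree = 1 := hmon.coeff_natDegree
    rw [h2, one_smul] at haeval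
    have h3 : ∑ i : Fin D, (-(cl (γ i))) * (cl s) ^ (i : ℕ)
        = -∑ x ∈ Finset.range p.natDegree, p.coeff x • cl s ^ x := by
      rw [Fin.sum_univ_eq_sum_range (fun i => (-(cl (γ i))) * (cl s) ^ i) D,
        ← Finset.sum_neg_distrib]
      refine Finset.sum_congr rfl (fun i _ => ?_)
      rw [hγ i, neg_mul]
      rfl
    rw [h3]
    linear_combination haeval
  have hbd : ∀ᶠ n in (hyperfilter ℕ : Filter ℕ), ∀ i : Fin D,
      logHeight₁ (γ i n) ≤ Cγ i * (1 + g n) := by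
    rw [Filter.eventually_all]
    intro i
    exact hγb i
  filter_upwards [cl_eq_iff.mp hrel, hbd] with n h1 h2
  have h3 := hC₀ (s n) (fun i => -γ i n) h1
  have h4 : ∑ i : Fin D, logHeight₁ (-γ i n) ≤ (∑ i : Fin D, Cγ i) * (1 + g n) := by
    rw [Finset.sum_mul]
    refine Finset.sum_le_sum (fun i _ => ?_)
    rw [logHeight₁_neg]
    exact h2 i
  have h5 : C₀ ≤ |C₀| * (1 + g n) := by
    have := le_abs_self C₀
    have := abs_nonneg C₀
    have := hg n
    nlinarith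
  rw [add_mul]
  linarith

end Pool.Agent.MPa67235
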