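import Mathlib
import Pool.Agent.MPa67235.Ultra
import Pool.Agent.MPa67235.Growth
import Pool.Agent.MPa67235.Basics

/-!
# Zariski density of the orbit
-/

namespace Pool.Agent.MPa67235

open Height Filter MvPolynomial

/-- `T₁, T₂, T₃` -/
noncomputable def T (m : ℕ → ℕ) : ℕ → ℚ := fun n => X (m n) ^ 3 / (-2)

lemma height_T_bounds : ∃ C : ℝ, ∀ m : ℕ, m ≠ 0 →
    logHeight₁ (X m ^ 3 / (-2)) ≤ 3 * H m + C ∧ 3 * H m - C ≤ logHeight₁ (X m ^ 3 / (-2)) := by
  refine ⟨logHeight₁ (-2 : ℚ), fun m hm => ⟨?_, ?_⟩⟩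
  · have h1 := logHeight₁_mul_le (X m ^ 3) ((-2 : ℚ)⁻¹)
    rw [← div_eq_mul_inv, logHeight₁_inv, logHeight₁_pow] at h1
    unfold H
    push_cast at h1
    linarith
  · have h3 : logHeight₁ (X m ^ 3) ≤ logHeight₁ (X m ^ 3 / (-2)) + logHeight₁ (-2 : ℚ) := by
      have := logHeight₁_mul_le (X m ^ 3 / (-2)) (-2 : ℚ)
      rwa [div_mul_cancel₀ _ (by norm_num : (-2 : ℚ) ≠ 0)] at this
    rw [logHeight₁_pow] at h3
    unfold H
    push_cast at h3
    linarith

/-- comparison function -/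
noncomputable def sqf (m : ℕ → ℕ) : ℕ → ℝ := fun n => (m n : ℝ) ^ 2

lemma sqf_nonneg (m : ℕ → ℕ) : ∀ n, 0 ≤ sqf m n := fun n => by unfold sqf; positivity

lemma zero_nonneg' : ∀ n : ℕ, (0 : ℝ) ≤ (fun _ : ℕ => (0 : ℝ)) n := fun _ => le_rfl

lemma T_mem (m : ℕ → ℕ) (hm : ∀ n, m n ≠ 0) : cl (T m) ∈ bddField (sqf m) (sqf_nonneg m) := by
  obtain ⟨C, hC⟩ := height_T_bounds
  obtain ⟨c, C₀, hc, hH⟩ := H_quadratic
  refine mem_bddField.mpr ⟨T m, rfl, 3 * c + |C| + 3 * |C₀|, by positivity, ?_⟩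
  filter_upwards with n
  have h1 := (hC (m n) (hm n)).1
  have h2 := (abs_le.mp (hH (m n) (hm n))).2
  have h3 := le_abs_self C
  have h4 := le_abs_self C₀
  have h5 := abs_nonneg C
  have h6 := abs_nonneg C₀
  have h7 : 0 ≤ (m n : ℝ) ^ 2 := by positivity
  unfold sqf T
  nlinarith

/-- if `m` dominates `m'` superlinearly then `T m` is not in the field of `m'` -/
lemma T_not_mem (m : ℕ → ℕ) (hm : ∀ n, m n ≠ 0) (g : ℕ → ℝ) (hg : ∀ n, 0 ≤ g n)
    (hdom : ∀ K : ℝ, ∀ᶠ n in atTop, K * (1 + g n) < (m n : ℝ) ^ 2) :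
    cl (T m) ∉ bddField g hg := by
  intro hmem
  obtain ⟨B, hB, hb⟩ := cl_mem_bddField hmem
  obtain ⟨C, hC⟩ := height_T_bounds
  obtain ⟨c, C₀, hc, hH⟩ := H_quadratic
  have h1 := (hdom ((B + |C| + 3 * |C₀|) / (3 * c))).filter_mono Nat.hyperfilter_le_atTop
  obtain ⟨n, hn1, hn2⟩ := (h1.and hb).exists
  have h2 := (hC (m n) (hm n)).2
  have h3 := (abs_le.mp (hH (m n) (hm n))).1
  have h4 := le_abs_self C
  have h5 := le_abs_self C₀
  have h6 := abs_nonneg C
  have h7 := abs_nonneg C₀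
  rw [div_mul_eq_mul_div, div_lt_iff₀ (by positivity)] at hn1
  have h8 := hg n
  unfold T at hn2
  nlinarith [mul_nonneg h6 h8, mul_nonneg h7 h8]

lemma two_mul_m1_ge (n : ℕ) : (n + 1) * m2 n ≤ 2 * m1 n := by
  unfold m1 m2
  have := two_mul_j1 n
  calc (n + 1) * (2 ^ n * j2 n) = 2 ^ n * ((n + 1) * j2 n) := by ring
    _ ≤ 2 ^ n * (2 * j1 n) := by
        apply Nat.mul_le_mul_left
        rw [this, j2]
        nlinarith
    _ = 2 * (2 ^ n * j1 n) := by ring

lemma m2_eq (n : ℕ) : m2 n = (n + 2) * m3 n := by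
  simp only [m2, m3, j2]; ring

lemma dom_of_le (m : ℕ → ℕ) (g : ℕ → ℝ) (a : ℝ) (ha : 0 < a) (hg : ∀ n, 0 ≤ g n)
    (h : ∀ n : ℕ, a * (n : ℝ) * (1 + g n) ≤ (m n : ℝ) ^ 2) :
    ∀ K : ℝ, ∀ᶠ n in atTop, K * (1 + g n) < (m n : ℝ) ^ 2 := by
  intro K
  obtain ⟨N, hN⟩ := exists_nat_gt (K / a)
  filter_upwards [eventually_ge_atTop N] with n hn
  have h1 : K < a * n := by
    rw [div_lt_iff₀ ha] at hN
    have : (N : ℝ) ≤ n := by exact_mod_cast hn
    nlinarith
  have h2 := hg n
  calc K * (1 + g n) < a * n * (1 + g n) := by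
        apply mul_lt_mul_of_pos_right h1; linarith
    _ ≤ _ := h n

lemma T1_not_mem : cl (T m1) ∉ bddField (sqf m2) (sqf_nonneg m2) := by
  refine T_not_mem m1 m1_ne _ _ (dom_of_le m1 _ (1 / 8) (by norm_num) (sqf_nonneg m2) ?_)
  intro n
  have h1 : ((n : ℝ) + 1) * m2 n ≤ 2 * m1 n := by exact_mod_cast two_mul_m1_ge n
  have h2 : (1 : ℝ) ≤ m2 n := by exact_mod_cast Nat.one_le_iff_ne_zero.mpr (m2_ne n)
  have h3 : (((n : ℝ) + 1) * m2 n) ^ 2 ≤ (2 * m1 n) ^ 2 := by gcongr
  have h4 : (1 : ℝ) ≤ (m2 n : ℝ) ^ 2 := by nlinarith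
  have h5 : (0 : ℝ) ≤ n := Nat.cast_nonneg n
  unfold sqf
  have h6 : (n : ℝ) * (1 + (m2 n : ℝ) ^ 2) ≤ 2 * ((n : ℝ) + 1) ^ 2 * (m2 n : ℝ) ^ 2 := by
    nlinarith [mul_nonneg h5 (sub_nonneg.mpr h4), mul_nonneg (mul_nonneg h5 h5) (sub_nonneg.mpr h4)]
  nlinarith

lemma T2_not_mem : cl (T m2) ∉ bddField (sqf m3) (sqf_nonneg m3) := by
  refine T_not_mem m2 m2_ne _ _ (dom_of_le m2 _ (1 / 8) (by norm_num) (sqf_nonneg m3) ?_)
  intro n
  have h1 : (m2 n : ℝ) = (n + 2) * m3 n := by exact_mod_cast m2_eq n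
  have h2 : (1 : ℝ) ≤ m3 n := by exact_mod_cast Nat.one_le_iff_ne_zero.mpr (m3_ne n)
  have h4 : (1 : ℝ) ≤ (m3 n : ℝ) ^ 2 := by nlinarith
  have h5 : (0 : ℝ) ≤ n := Nat.cast_nonneg n
  unfold sqf
  rw [h1]
  nlinarith [mul_nonneg h5 (sub_nonneg.mpr h4), mul_nonneg (mul_nonneg h5 h5) (sub_nonneg.mpr h4)]

lemma T3_not_mem : cl (T m3) ∉ bddField (fun _ => 0) zero_nonneg' := by
  refine T_not_mem m3 m3_ne _ _ (dom_of_le m3 _ (1 / 8) (by norm_num) zero_nonneg' ?_)
  intro n
  have h1 : n < m3 n := by unfold m3; exact Nat.lt_two_pow_self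
  have h2 : (n : ℝ) ≤ m3 n := by exact_mod_cast h1.le
  have h3 : (1 : ℝ) ≤ m3 n := by exact_mod_cast Nat.one_le_iff_ne_zero.mpr (m3_ne n)
  have h5 : (0 : ℝ) ≤ n := Nat.cast_nonneg n
  nlinarith

lemma T2_mem : cl (T m2) ∈ bddField (sqf m2) (sqf_nonneg m2) := T_mem m2 m2_ne

lemma T3_mem : cl (T m3) ∈ bddField (sqf m3) (sqf_nonneg m3) := T_mem m3 m3_ne

lemma T3_mem' : cl (T m3) ∈ bddField (sqf m2) (sqf_nonneg m2) := by
  refine bddField_mono (fun n => ?_) T3_mem
  have h1 : (m2 n : ℝ) = (n + 2) * m3 n := by exact_mod_cast m2_eq n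
  have h5 : (0 : ℝ) ≤ n := Nat.cast_nonneg n
  have h4 : (0 : ℝ) ≤ (m3 n : ℝ) ^ 2 := by positivity
  unfold sqf
  rw [h1]
  nlinarith [mul_nonneg h5 h4, mul_nonneg (mul_nonneg h5 h5) h4]

/-! ### Algebraic independence -/

lemma ratAlg_mem (F : Subfield Kst) (q : ℚ) : algebraMap ℚ Kst q ∈ F := by
  have : algebraMap ℚ Kst q = (algebraMap ℚ F q : F) := by
    simp
  rw [this]
  exact (algebraMap ℚ F q).2

/-- A subfield as a `ℚ`-subalgebra. -/
noncomputable def subalg (F : Subfield Kst) : Subalgebra ℚ Kst :=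
  { F.toSubring with algebraMap_mem' := ratAlg_mem F }

lemma transcendental_adjoin {F : Subfield Kst} (hF : ∀ x, IsAlgebraic F x → x ∈ F) {S : Set Kst}
    (hS : S ⊆ F) {a : Kst} (ha : a ∉ F) : Transcendental (Algebra.adjoin ℚ S) a := by
  intro halg
  apply ha
  apply hF
  have hle : Algebra.adjoin ℚ S ≤ subalg F := Algebra.adjoin_le hS
  obtain ⟨p, hp0, hp⟩ := halg
  let ι : Algebra.adjoin ℚ S →+* F :=
    { toFun := fun x => ⟨x.1, hle x.2⟩
      map_one' := rfl
      map_mul' := fun _ _ => rfl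
      map_zero' := rfl
      map_add' := fun _ _ => rfl }
  have hι : Function.Injective ι := by
    intro x y h
    have := congrArg Subtype.val h
    exact Subtype.ext this
  refine ⟨p.map ι, (Polynomial.map_ne_zero_iff hι).mpr hp0, ?_⟩
  rw [Polynomial.aeval_def, Polynomial.eval₂_map]
  rw [Polynomial.aeval_def] at hp
  exact hp

/-- the three functions are algebraically independent in the ultrapower -/
noncomputable def x1 : Option Empty → Kst := fun o => o.elim (cl (T m3)) Empty.elim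
noncomputable def x2 : Option (Option Empty) → Kst := fun o => o.elim (cl (T m2)) x1
noncomputable def x3 : Option (Option (Option Empty)) → Kst := fun o => o.elim (cl (T m1)) x2

lemma ind3 : AlgebraicIndependent ℚ x3 := by
  have h0 : AlgebraicIndependent ℚ (Empty.elim : Empty → Kst) := algebraicIndependent_empty_type
  have h1 : AlgebraicIndependent ℚ x1 := by
    refine (h0.option_iff_transcendental _).mpr ?_
    refine transcendental_adjoin (F := bddField (fun _ => 0) zero_nonneg')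
      (fun x hx => mem_of_isAlgebraic hx) ?_ T3_not_mem
    rintro _ ⟨e, _⟩
    exact e.elim
  have h2 : AlgebraicIndependent ℚ x2 := by
    refine (h1.option_iff_transcendental _).mpr ?_
    refine transcendental_adjoin (F := bddField (sqf m3) (sqf_nonneg m3))
      (fun x hx => mem_of_isAlgebraic hx) ?_ T2_not_mem
    rintro _ ⟨o, rfl⟩
    rcases o with _ | e
    · exact T3_mem
    · exact e.elim
  refine (h2.option_iff_transcendental _).mpr ?_
  refine transcendental_adjoin (F := bddField (sqf m2) (sqf_nonneg m2))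
    (fun x hx => mem_of_isAlgebraic hx) ?_ T1_not_mem
  rintro _ ⟨o, rfl⟩
  rcases o with _ | _ | e
  · exact T2_mem
  · exact T3_mem'
  · exact e.elim

/-- classes of the homogeneous coordinates -/
noncomputable def ptS : Fin 4 → Kst := fun i => cl (fun n => pt n i)

lemma cl_eval (P : MvPolynomial (Fin 4) ℚ) : cl (fun n => eval (pt n) P) = aeval ptS P := by
  induction P using MvPolynomial.induction_on with
  | C a =>
    simp only [eval_C, MvPolynomial.aeval_C]
    have : (fun _ : ℕ => a) = algebraMap ℚ (ℕ → ℚ) a := rfl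
    rw [this]
    have h := (cl.toRatAlgHom).commutes a
    exact h
  | add p q hp hq =>
    simp only [map_add]
    rw [← hp, ← hq, ← map_add]
    rfl
  | mul_X p i hp =>
    simp only [map_mul, eval_X, aeval_X]
    rw [← hp]
    show _ = cl _ * cl _
    rw [← map_mul]
    rfl

/-- generators -/
noncomputable def gen : Fin 3 → Kst := ![cl uu, cl vv, cl kk]

/-- the field generated by the coordinates -/
noncomputable abbrev Agen : IntermediateField ℚ Kst := IntermediateField.adjoin ℚ (Set.range gen)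

lemma gen_mem (i : Fin 3) : gen i ∈ Agen := IntermediateField.subset_adjoin _ _ ⟨i, rfl⟩

lemma ptS_mem (i : Fin 4) : ptS i ∈ Agen := by
  fin_cases i
  · have : ptS 0 = 1 := by
      show cl (fun n => pt n 0) = 1
      have : (fun n => pt n 0) = 1 := by funext n; simp [pt]
      rw [this, map_one]
    show ptS 0 ∈ Agen
    rw [this]; exact one_mem _
  · exact gen_mem 0
  · exact gen_mem 1
  · exact gen_mem 2

lemma aeval_mem (P : MvPolynomial (Fin 4) ℚ) : aeval ptS P ∈ Agen := by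
  induction P using MvPolynomial.induction_on with
  | C a => rw [MvPolynomial.aeval_C]; exact Agen.algebraMap_mem a
  | add p q hp hq => rw [map_add]; exact add_mem hp hq
  | mul_X p i hp => rw [map_mul, aeval_X]; exact mul_mem hp (ptS_mem i)

lemma IsRat.cl_mem {s : ℕ → ℚ} (h : IsRat s) : cl s ∈ Agen := by
  obtain ⟨d, N, D, hN, hD, h⟩ := h
  have : s = (fun n => eval (pt n) N) * (fun n => (eval (pt n) D)⁻¹) := by
    funext n
    rw [(h n).2]
    rfl
  rw [this, map_mul, cl_inv, cl_eval, cl_eval]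
  exact mul_mem (aeval_mem N) (inv_mem (aeval_mem D))

lemma x3_mem (o : Option (Option (Option Empty))) : x3 o ∈ Agen := by
  rcases o with _ | _ | _ | e
  · exact isRat_T1.cl_mem
  · exact isRat_T2.cl_mem
  · exact isRat_T3.cl_mem
  · exact e.elim

lemma ind_gen : AlgebraicIndependent ℚ gen := by
  refine algebraicIndependent_of_card gen x3 ind3 x3_mem ?_
  simp

/-- a homogeneous polynomial over `ℚ` vanishing along the orbit is zero. -/
theorem eq_zero_of_vanish {G : MvPolynomial (Fin 4) ℚ} {d : ℕ} (hG : G.IsHomogeneous d)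
    (h : ∀ n, eval (pt n) G = 0) : G = 0 := by
  -- dehomogenise
  let σ : Fin 4 → MvPolynomial (Fin 3) ℚ := ![1, MvPolynomial.X 0, MvPolynomial.X 1, MvPolynomial.X 2]
  have h1 : aeval σ G = 0 := by
    apply ind_gen.eq_zero_of_aeval_eq_zero
    have h2 : aeval gen (aeval σ G) = aeval ptS G := by
      rw [MvPolynomial.comp_aeval_apply]
      congr 1
      ext i
      rw [aeval_X, aeval_X]
      fin_cases i
      · show aeval gen (σ 0) = ptS 0
        simp only [σ, Matrix.cons_val_zero, map_one]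
        symm
        show cl (fun n => pt n 0) = 1
        have : (fun n => pt n 0) = 1 := by funext n; simp [pt]
        rw [this, map_one]
      · show aeval gen (MvPolynomial.X 0) = ptS 1
        rw [aeval_X]
        rfl
      · show aeval gen (MvPolynomial.X 1) = ptS 2
        rw [aeval_X]
        rfl
      · show aeval gen (MvPolynomial.X 2) = ptS 3
        rw [aeval_X]
        rfl
    rw [h2, ← cl_eval]
    have : (fun n => eval (pt n) G) = 0 := by funext n; exact h n
    rw [this, map_zero]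
  -- `X₀ * G = 0`
  have h3 : (MvPolynomial.X 0 : MvPolynomial (Fin 4) ℚ) * G = 0 := by
    apply MvPolynomial.funext
    intro x
    rw [map_mul, eval_X, map_zero]
    by_cases hx : x 0 = 0
    · rw [hx, zero_mul]
    · have h4 : eval (fun i => (x 0)⁻¹ * x i) G = 0 := by
        have h5 := congrArg (eval (fun j : Fin 3 => (x 0)⁻¹ * x j.succ)) h1
        rw [map_zero] at h5
        have h6 : (eval (fun j : Fin 3 => (x 0)⁻¹ * x j.succ)) (aeval σ G)
            = eval (fun i => (x 0)⁻¹ * x i) G := by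
          rw [← MvPolynomial.coe_aeval_eq_eval, ← MvPolynomial.coe_aeval_eq_eval]
          show (aeval (fun j : Fin 3 => (x 0)⁻¹ * x j.succ)) (aeval σ G) = aeval (fun i => (x 0)⁻¹ * x i) G
          rw [MvPolynomial.comp_aeval_apply]
          congr 1
          ext i
          rw [aeval_X, aeval_X]
          fin_cases i
          · show aeval _ (σ 0) = (x 0)⁻¹ * x 0
            simp [σ, hx]
          · show aeval _ (σ 1) = (x 0)⁻¹ * x 1
            simp [σ]
          · show aeval _ (σ 2) = (x 0)⁻¹ * x 2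
            simp [σ]
          · show aeval _ (σ 3) = (x 0)⁻¹ * x 3
            simp [σ]
        rw [← h6]; exact h5
      have h7 := eval_scale hG (x 0)⁻¹ x
      rw [h7] at h4
      rcases mul_eq_zero.mp h4 with h8 | h8
      · exact absurd h8 (pow_ne_zero _ (inv_ne_zero hx))
      · rw [h8, mul_zero]
  rcases mul_eq_zero.mp h3 with h4 | h4
  · exact absurd h4 (MvPolynomial.X_ne_zero 0)
  · exact h4

end Pool.Agent.MPa67235
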