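import Mathlib

/-!
# Definitions for MP_a67235_nt

Rational self-maps of `ℙ^N`, iterates in lowest terms, dynamical degree, Zariski density,
absolute logarithmic Weil height, and the two posed questions.
-/

namespace Pool.Agent.MPa67235

open MvPolynomial

/-- A rational map `ℙ^N ⇢ ℙ^N` over the field `K`: homogeneous polynomials `f_0, …, f_N` of a
common degree `deg` without common factor. -/
structure RatMap (K : Type*) [Field K] (N : ℕ) where
  /-- the common degree -/
  deg : ℕ
  /-- the coordinate polynomials -/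
  poly : Fin (N + 1) → MvPolynomial (Fin (N + 1)) K
  /-- they are homogeneous of degree `deg` -/
  homog : ∀ i, (poly i).IsHomogeneous deg
  /-- they have no common factor -/
  coprime : ∀ g : MvPolynomial (Fin (N + 1)) K, (∀ i, g ∣ poly i) → IsUnit g

namespace RatMap

variable {K : Type*} [Field K] {N : ℕ}

/-- The vector `(f_0(x), …, f_N(x))`. -/
noncomputable def eval (f : RatMap K N) (x : Fin (N + 1) → K) : Fin (N + 1) → K :=
  fun i => MvPolynomial.eval x (f.poly i)

/-- `f` is dominant: no nonzero homogeneous polynomial `G` satisfies `G(f_0, …, f_N) = 0`,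
i.e. the image of `f` is Zariski dense. -/
def Dominant (f : RatMap K N) : Prop :=
  ∀ (m : ℕ) (G : MvPolynomial (Fin (N + 1)) K), G.IsHomogeneous m → bind₁ f.poly G = 0 → G = 0

/-- `h` is the composite `f ∘ g` written in lowest terms: the polynomials `f_i(g_0, …, g_N)`
are the polynomials `h_i` multiplied by a common nonzero factor `A`. -/
def IsComp (f g h : RatMap K N) : Prop :=
  ∃ A : MvPolynomial (Fin (N + 1)) K, A ≠ 0 ∧ ∀ i, bind₁ g.poly (f.poly i) = A * h.poly i

/-- `F n` is the `n`-th iterate `f^n`, written in lowest terms (`F 0` is the identity). -/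
def IsIterates (f : RatMap K N) (F : ℕ → RatMap K N) : Prop :=
  (F 0).poly = X ∧ ∀ n, f.IsComp (F n) (F (n + 1))

/-- `δ = lim (deg f^n)^(1/n)` is the dynamical degree, `F n` being the iterates in lowest
terms. -/
def IsDynDegree (F : ℕ → RatMap K N) (δ : ℝ) : Prop :=
  Filter.Tendsto (fun n : ℕ => ((F n).deg : ℝ) ^ (1 / (n : ℝ))) Filter.atTop (nhds δ)

/-- `P n` (a nonzero vector of homogeneous coordinates) represents the point `f^n(P)` for every
`n ≥ 0`, all these points being defined: `f` is defined at each `P n` and maps it to `P (n + 1)`,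
and each iterate `f^n` in lowest terms is defined at `P 0` and maps it to `P n`. -/
def IsOrbit (f : RatMap K N) (F : ℕ → RatMap K N) (P : ℕ → Fin (N + 1) → K) : Prop :=
  (∀ n, P n ≠ 0) ∧ (∀ n, ∃ c : K, c ≠ 0 ∧ f.eval (P n) = c • P (n + 1)) ∧
    ∀ n, ∃ c : K, c ≠ 0 ∧ (F n).eval (P 0) = c • P n

end RatMap

/-- Zariski density in `ℙ^N` of the set of points with homogeneous coordinates `p n`: no nonzero
homogeneous polynomial vanishes at all of them. -/
def ZDense {K : Type*} [Field K] {N : ℕ} (p : ℕ → Fin (N + 1) → K) : Prop :=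
  ∀ (m : ℕ) (G : MvPolynomial (Fin (N + 1)) K), G.IsHomogeneous m →
    (∀ n, MvPolynomial.eval (p n) G = 0) → G = 0

/-- `ℚ̄` -/
abbrev Qbar : Type := AlgebraicClosure ℚ

/-- The number field generated by the coordinates of `x`. -/
noncomputable abbrev coordField {ι : Type} (x : ι → Qbar) : IntermediateField ℚ Qbar :=
  IntermediateField.adjoin ℚ (Set.range x)

instance coordField_finite {ι : Type} [Finite ι] (x : ι → Qbar) :
    FiniteDimensional ℚ (coordField x) :=
  IntermediateField.finiteDimensional_adjoin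
    (fun a _ => ((AlgebraicClosure.isAlgebraic ℚ).isAlgebraic a).isIntegral)

instance coordField_numberField {ι : Type} [Finite ι] (x : ι → Qbar) :
    NumberField (coordField x) where

/-- The absolute logarithmic Weil height of the point with homogeneous coordinates `x`:
`[K:ℚ]⁻¹ ∑_v [K_v:ℚ_v] log max_i |x_i|_v` where `K` is the number field generated by the
coordinates (`Height.logHeight` is Mathlib's logarithmic height relative to `K`). -/
noncomputable def weilHeight {N : ℕ} (x : Fin (N + 1) → Qbar) : ℝ :=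
  Height.logHeight (fun i => (⟨x i, IntermediateField.subset_adjoin ℚ _ ⟨i, rfl⟩⟩ : coordField x)) /
    Module.finrank ℚ (coordField x)

/-- `F(n) ≍ G(n)`: there are `c₁, c₂, c₃ > 0` with `c₁ F(n) ≤ G(n) ≤ c₂ F(n)` for all
`n ≥ c₃`. -/
def Asymp (F G : ℕ → ℝ) : Prop :=
  ∃ c₁ c₂ c₃ : ℝ, 0 < c₁ ∧ 0 < c₂ ∧ 0 < c₃ ∧ ∀ n : ℕ, c₃ ≤ n → c₁ * F n ≤ G n ∧ G n ≤ c₂ * F n

/-- **Q1**: for every dominant rational map `f : ℙ^N ⇢ ℙ^N` over `ℚ̄` and every point `P` with
well defined and Zariski dense orbit there are integers `k` and `0 ≤ ℓ ≤ N` such that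
`h(f^n(P)) ≍ δ_f^n n^ℓ (log n)^k`. -/
def Question1 : Prop :=
  ∀ (N : ℕ), 1 ≤ N → ∀ (f : RatMap Qbar N) (F : ℕ → RatMap Qbar N) (δ : ℝ)
    (P : ℕ → Fin (N + 1) → Qbar),
    f.Dominant → f.IsIterates F → RatMap.IsDynDegree F δ → f.IsOrbit F P → ZDense P →
    ∃ (k : ℤ) (l : ℕ), l ≤ N ∧
      Asymp (fun n => weilHeight (P n)) (fun n => δ ^ n * (n : ℝ) ^ l * Real.log n ^ k)

/-- **Q2**: if moreover `δ_f > 1` then `h(f^n(P)) ≍ δ_f^n n^ℓ` for some integer
`0 ≤ ℓ ≤ N`. -/
def Question2 : Prop :=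
  ∀ (N : ℕ), 1 ≤ N → ∀ (f : RatMap Qbar N) (F : ℕ → RatMap Qbar N) (δ : ℝ)
    (P : ℕ → Fin (N + 1) → Qbar),
    f.Dominant → f.IsIterates F → RatMap.IsDynDegree F δ → f.IsOrbit F P → ZDense P → 1 < δ →
    ∃ l : ℕ, l ≤ N ∧ Asymp (fun n => weilHeight (P n)) (fun n => δ ^ n * (n : ℝ) ^ l)

end Pool.Agent.MPa67235
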