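import Mathlib

/-!
# Factors of homogeneous polynomials are homogeneous
-/

namespace Pool.Agent.MPa67235

open MvPolynomial

variable {σ K : Type*} [Field K]

/-- the grading homomorphism `X i ↦ X i * T` -/
noncomputable def grad : MvPolynomial σ K →+* Polynomial (MvPolynomial σ K) :=
  (eval₂Hom (Polynomial.C.comp C) (fun i => Polynomial.C (X i) * Polynomial.X))

lemma grad_monomial (m : σ →₀ ℕ) (a : K) :
    grad (monomial m a) = Polynomial.C (monomial m a) * Polynomial.X ^ m.degree := by
  rw [grad, coe_eval₂Hom, eval₂_monomial]
  simp only [mul_pow, Finsupp.prod, Finset.prod_mul_distrib, RingHom.comp_apply]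
  rw [Finset.prod_pow_eq_pow_sum, ← mul_assoc]
  congr 1
  rw [monomial_eq, map_mul]
  congr 1
  simp only [Finsupp.prod, map_prod, map_pow]

lemma grad_coeff (φ : MvPolynomial σ K) (k : ℕ) :
    (grad φ).coeff k = homogeneousComponent k φ := by
  induction φ using MvPolynomial.induction_on' with
  | monomial m a =>
    rw [grad_monomial, Polynomial.coeff_C_mul, Polynomial.coeff_X_pow]
    by_cases h : k = m.degree
    · rw [if_pos h, mul_one]
      have := isHomogeneous_monomial a (rfl : m.degree = m.degree)
      rw [h]
      exact (homogeneousComponent_eq_self this).symm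
    · rw [if_neg h, mul_zero]
      have := isHomogeneous_monomial a (rfl : m.degree = m.degree)
      rw [homogeneousComponent_of_mem this, if_neg h]
  | add p q hp hq =>
    rw [map_add, Polynomial.coeff_add, hp, hq, map_add]

lemma grad_injective : Function.Injective (grad : MvPolynomial σ K →+* _) := by
  intro a b h
  have h1 : ∀ k, homogeneousComponent k a = homogeneousComponent k b := by
    intro k; rw [← grad_coeff, ← grad_coeff, h]
  have ha := sum_homogeneousComponent a
  have hb := sum_homogeneousComponent b
  set M := max a.totalDegree b.totalDegree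
  have ha' : ∑ i ∈ Finset.range (M + 1), homogeneousComponent i a = a := by
    rw [← Finset.sum_subset (s₁ := Finset.range (a.totalDegree + 1)), ha]
    · intro x hx
      rw [Finset.mem_range] at hx ⊢
      have : a.totalDegree ≤ M := le_max_left _ _
      omega
    · intro x _ hx
      rw [Finset.mem_range, not_lt] at hx
      exact homogeneousComponent_eq_zero _ _ (by omega)
  have hb' : ∑ i ∈ Finset.range (M + 1), homogeneousComponent i b = b := by
    rw [← Finset.sum_subset (s₁ := Finset.range (b.totalDegree + 1)), hb]
    · intro x hx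
      rw [Finset.mem_range] at hx ⊢
      have : b.totalDegree ≤ M := le_max_right _ _
      omega
    · intro x _ hx
      rw [Finset.mem_range, not_lt] at hx
      exact homogeneousComponent_eq_zero _ _ (by omega)
  rw [← ha', ← hb']
  exact Finset.sum_congr rfl (fun i _ => h1 i)

lemma isHomogeneous_of_grad {φ : MvPolynomial σ K} {k : ℕ}
    (h1 : (grad φ).natDegree = k) (h2 : (grad φ).natTrailingDegree = k) : φ.IsHomogeneous k := by
  have h3 : ∀ j, j ≠ k → homogeneousComponent j φ = 0 := by
    intro j hj
    rw [← grad_coeff]
    rcases lt_or_gt_of_ne hj with h | h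
    · exact Polynomial.coeff_eq_zero_of_lt_natTrailingDegree (by omega)
    · exact Polynomial.coeff_eq_zero_of_natDegree_lt (by omega)
  have h4 : φ = homogeneousComponent k φ := by
    apply grad_injective
    ext1 j
    rw [grad_coeff, grad_coeff]
    by_cases hj : j = k
    · subst hj
      rw [homogeneousComponent_eq_self (homogeneousComponent_isHomogeneous _ _)]
    · rw [h3 j hj, homogeneousComponent_of_mem (homogeneousComponent_isHomogeneous k φ), if_neg hj]
  rw [h4]
  exact homogeneousComponent_isHomogeneous _ _

/-- factors of a nonzero homogeneous polynomial are homogeneous -/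
theorem isHomogeneous_of_mul {φ ψ : MvPolynomial σ K} {n : ℕ} (h : (φ * ψ).IsHomogeneous n)
    (h0 : φ * ψ ≠ 0) :
    ∃ a b : ℕ, φ.IsHomogeneous a ∧ ψ.IsHomogeneous b ∧ a + b = n := by
  have hφ : φ ≠ 0 := left_ne_zero_of_mul h0
  have hψ : ψ ≠ 0 := right_ne_zero_of_mul h0
  have gφ : grad φ ≠ 0 := fun e => hφ (grad_injective (by rw [e, map_zero]))
  have gψ : grad ψ ≠ 0 := fun e => hψ (grad_injective (by rw [e, map_zero]))
  have hprod : grad (φ * ψ) = Polynomial.C (φ * ψ) * Polynomial.X ^ n := by
    ext1 j
    rw [grad_coeff, homogeneousComponent_of_mem h, Polynomial.coeff_C_mul, Polynomial.coeff_X_pow]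
    split_ifs <;> simp
  have d1 : (grad φ).natDegree + (grad ψ).natDegree = n := by
    rw [← Polynomial.natDegree_mul gφ gψ, ← map_mul, hprod, Polynomial.natDegree_C_mul_X_pow _ _ h0]
  have d2 : (grad φ).natTrailingDegree + (grad ψ).natTrailingDegree = n := by
    rw [← Polynomial.natTrailingDegree_mul gφ gψ, ← map_mul, hprod]
    have : Polynomial.C (φ * ψ) ≠ 0 := by simpa using h0
    rw [Polynomial.natTrailingDegree_mul_X_pow this, Polynomial.natTrailingDegree_C, zero_add]
  have e1 := Polynomial.natTrailingDegree_le_natDegree (grad φ)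
  have e2 := Polynomial.natTrailingDegree_le_natDegree (grad ψ)
  exact ⟨_, _, isHomogeneous_of_grad rfl (by omega), isHomogeneous_of_grad rfl (by omega), d1⟩

end Pool.Agent.MPa67235
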