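import Mathlib
import Pool.Agent.MPa67235.HomFactor
import Pool.Agent.MPa67235.Basics
import Pool.Agent.MPa67235.Defs

/-!
# Rational self-maps of projective space
-/

namespace Pool.Agent.MPa67235

open MvPolynomial

namespace RatMap

variable {K : Type*} [Field K] {N : ℕ}

lemma exists_ne (f : RatMap K N) : ∃ i, f.poly i ≠ 0 := by
  by_contra h
  push Not at h
  have h1 := f.coprime (X 0) (fun i => by rw [h i]; exact dvd_zero _)
  have h2 := h1.map (MvPolynomial.eval (fun _ => (0 : K)))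
  rw [eval_X] at h2
  exact not_isUnit_zero h2

end RatMap

variable {K : Type*} [Field K] {N : ℕ}

lemma isUnit_of_totalDegree_eq_zero {σ : Type*} {g : MvPolynomial σ K} (h0 : g ≠ 0)
    (h : g.totalDegree = 0) : IsUnit g := by
  rw [totalDegree_eq_zero_iff_eq_C] at h
  rw [h]
  have : coeff 0 g ≠ 0 := by
    intro hc
    rw [hc, C_0] at h
    exact h0 h
  exact (IsUnit.mk0 _ this).map C

/-- the identity of `ℙ^N`, `N ≥ 1` -/
lemma exists_id (hN : 1 ≤ N) : ∃ f : RatMap K N, f.poly = X := by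
  refine ⟨⟨1, X, fun i => isHomogeneous_X _ _, ?_⟩, rfl⟩
  intro g hg
  obtain ⟨h, hh⟩ := hg 0
  have h0 : g * h ≠ 0 := by rw [← hh]; exact X_ne_zero 0
  obtain ⟨a, b, ha, hb, hab⟩ := isHomogeneous_of_mul (by rw [← hh]; exact isHomogeneous_X K 0) h0
  have hg0 : g ≠ 0 := left_ne_zero_of_mul h0
  have hh0 : h ≠ 0 := right_ne_zero_of_mul h0
  rcases Nat.eq_zero_or_pos a with h1 | h1
  · subst h1
    exact isUnit_of_totalDegree_eq_zero hg0 (ha.totalDegree hg0)
  · exfalso
    have hb0 : b = 0 := by omega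
    subst hb0
    let j : Fin (N + 1) := ⟨1, by omega⟩
    obtain ⟨h', hh'⟩ := hg j
    have hunit : IsUnit h := isUnit_of_totalDegree_eq_zero hh0 (hb.totalDegree hh0)
    let x : Fin (N + 1) → K := fun i => if i = 0 then 0 else 1
    have e1 := congrArg (MvPolynomial.eval x) hh
    have e2 := congrArg (MvPolynomial.eval x) hh'
    rw [eval_X, map_mul] at e1 e2
    have hu := hunit.map (MvPolynomial.eval x)
    have hx0 : x 0 = 0 := by simp [x]
    have hj0 : j ≠ 0 := by
      intro h
      have h2 : (1 : ℕ) = 0 := congrArg Fin.val h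
      omega
    have hxj : x j = 1 := if_neg hj0
    rw [hx0] at e1
    have : MvPolynomial.eval x g = 0 := by
      rcases mul_eq_zero.mp e1.symm with h2 | h2
      · exact h2
      · exact absurd h2 hu.ne_zero
    rw [this, zero_mul, hxj] at e2
    exact one_ne_zero e2

/-- Every nonzero tuple of homogeneous polynomials of the same degree can be divided by a
common factor so that the quotients have no common factor. -/
lemma exists_coprime_tuple {ι σ : Type*} {d : ℕ} (T : ι → MvPolynomial σ K)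
    (hT : ∀ i, (T i).IsHomogeneous d) (h0 : ∃ i, T i ≠ 0) :
    ∃ (b : ℕ) (F : ι → MvPolynomial σ K) (A : MvPolynomial σ K), A ≠ 0 ∧ (∀ i, T i = A * F i) ∧
      (∀ i, (F i).IsHomogeneous b) ∧ b ≤ d ∧ (∀ g, (∀ i, g ∣ F i) → IsUnit g) := by
  classical
  obtain ⟨i₀, hi₀⟩ := h0
  -- a common divisor of maximal degree
  let P : ℕ → Prop := fun k => ∃ A : MvPolynomial σ K, (∀ i, A ∣ T i) ∧ A.totalDegree = k
  have hP0 : P 0 := ⟨1, fun i => one_dvd _, totalDegree_one⟩
  have hPb : ∀ k, P k → k ≤ d := by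
    rintro k ⟨A, hA, rfl⟩
    obtain ⟨B, hB⟩ := hA i₀
    have hB0 : A * B ≠ 0 := by rw [← hB]; exact hi₀
    have h1 : (A * B).totalDegree = A.totalDegree + B.totalDegree :=
      totalDegree_mul_of_isDomain (left_ne_zero_of_mul hB0) (right_ne_zero_of_mul hB0)
    have h2 : (A * B).totalDegree = d := by rw [← hB]; exact (hT i₀).totalDegree hi₀
    omega
  obtain ⟨k, hk, hmax⟩ : ∃ k, P k ∧ ∀ l, P l → l ≤ k := by
    refine ⟨Nat.findGreatest P d, Nat.findGreatest_spec (Nat.zero_le d) hP0, ?_⟩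
    intro l hl
    exact Nat.le_findGreatest (hPb l hl) hl
  obtain ⟨A, hA, hAk⟩ := hk
  choose F hF using hA
  have hF0 : A * F i₀ ≠ 0 := by rw [← hF]; exact hi₀
  have hA0 : A ≠ 0 := left_ne_zero_of_mul hF0
  obtain ⟨a, b, ha, hb, hab⟩ := isHomogeneous_of_mul (by rw [← hF]; exact hT i₀) hF0
  have hFhom : ∀ i, (F i).IsHomogeneous b := by
    intro i
    by_cases hi : F i = 0
    · rw [hi]; exact isHomogeneous_zero _ _ _
    · have hne : A * F i ≠ 0 := mul_ne_zero hA0 hi
      obtain ⟨a', b', ha', hb', hab'⟩ := isHomogeneous_of_mul (by rw [← hF]; exact hT i) hne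
      have : a = a' := ha.inj_right ha' hA0
      have : b' = b := by omega
      rw [← this]; exact hb'
  refine ⟨b, F, A, hA0, hF, hFhom, by omega, ?_⟩
  intro g hg
  have hg0 : g ≠ 0 := by
    rintro rfl
    obtain ⟨c, hc⟩ := hg i₀
    rw [zero_mul] at hc
    exact (right_ne_zero_of_mul hF0) hc
  have h1 : P (A * g).totalDegree := ⟨A * g, fun i => by
    rw [hF i]; exact mul_dvd_mul_left A (hg i), rfl⟩
  have h2 := hmax _ h1
  rw [totalDegree_mul_of_isDomain hA0 hg0, hAk] at h2
  exact isUnit_of_totalDegree_eq_zero hg0 (by omega)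

/-- Every nonzero tuple of homogeneous polynomials of the same degree can be written in lowest
terms. -/
lemma exists_reduce {d : ℕ} (T : Fin (N + 1) → MvPolynomial (Fin (N + 1)) K)
    (hT : ∀ i, (T i).IsHomogeneous d) (h0 : ∃ i, T i ≠ 0) :
    ∃ (f : RatMap K N) (A : MvPolynomial (Fin (N + 1)) K), A ≠ 0 ∧ (∀ i, T i = A * f.poly i) ∧
      f.deg ≤ d := by
  obtain ⟨b, F, A, hA, hTF, hF, hb, hco⟩ := exists_coprime_tuple T hT h0
  exact ⟨⟨b, F, hF, hco⟩, A, hA, hTF, hb⟩

/-- a divisor of `B * g i` for all `i`, with `g` coprime, divides `B` -/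
lemma dvd_of_forall_dvd_mul (g : RatMap K N) (A : MvPolynomial (Fin (N + 1)) K) :
    A ≠ 0 → ∀ B : MvPolynomial (Fin (N + 1)) K, (∀ i, A ∣ B * g.poly i) → A ∣ B := by
  induction A using UniqueFactorizationMonoid.induction_on_prime with
  | h₁ => intro h; exact absurd rfl h
  | h₂ u hu => intro _ B _; exact hu.dvd
  | h₃ A p hA0 hp ih =>
    intro _ B hB
    have h1 : p ∣ B := by
      by_contra hpB
      have h2 : ∀ i, p ∣ g.poly i := by
        intro i
        have h3 : p ∣ B * g.poly i := (dvd_mul_right p A).trans (hB i)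
        exact (hp.dvd_or_dvd h3).resolve_left hpB
      exact hp.not_isUnit (g.coprime p h2)
    obtain ⟨B', rfl⟩ := h1
    apply mul_dvd_mul_left
    apply ih hA0
    intro i
    have h4 := hB i
    rw [mul_assoc] at h4
    exact (mul_dvd_mul_iff_left hp.ne_zero).mp h4

/-- uniqueness of the degree in lowest terms -/
lemma deg_eq_of_proportional (f g : RatMap K N) {A B : MvPolynomial (Fin (N + 1)) K}
    (hA : A ≠ 0) (hB : B ≠ 0) (h : ∀ i, A * f.poly i = B * g.poly i) : f.deg = g.deg := by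
  have h1 : A ∣ B := dvd_of_forall_dvd_mul g A hA B (fun i => ⟨f.poly i, (h i).symm⟩)
  have h2 : B ∣ A := dvd_of_forall_dvd_mul f B hB A (fun i => ⟨g.poly i, h i⟩)
  obtain ⟨i, hi⟩ := f.exists_ne
  have hgi : g.poly i ≠ 0 := by
    intro hg
    have := h i
    rw [hg, mul_zero] at this
    exact (mul_ne_zero hA hi) this
  have h3 : A.totalDegree = B.totalDegree := by
    obtain ⟨c, hc⟩ := h1
    obtain ⟨c', hc'⟩ := h2
    have hc0 : c ≠ 0 := by rintro rfl; rw [mul_zero] at hc; exact hB hc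
    have hc'0 : c' ≠ 0 := by rintro rfl; rw [mul_zero] at hc'; exact hA hc'
    have e1 := totalDegree_mul_of_isDomain hA hc0
    have e2 := totalDegree_mul_of_isDomain hB hc'0
    rw [← hc] at e1
    rw [← hc'] at e2
    omega
  have e1 := totalDegree_mul_of_isDomain hA hi
  have e2 := totalDegree_mul_of_isDomain hB hgi
  rw [(f.homog i).totalDegree hi] at e1
  rw [(g.homog i).totalDegree hgi] at e2
  rw [h i] at e1
  omega

end Pool.Agent.MPa67235
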