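import Mathlib
import Pool.Agent.MPa67235.RatMap

/-!
# Iterates of a rational map along a Zariski dense orbit
-/

namespace Pool.Agent.MPa67235

open MvPolynomial

variable {K : Type*} [Field K] {N : ℕ}

/-- `f` maps the `n`-th point to the `(n + a)`-th point. -/
def Shifts (f : RatMap K N) (p : ℕ → Fin (N + 1) → K) (a : ℕ) : Prop :=
  ∀ n, ∃ c : K, c ≠ 0 ∧ ∀ i, MvPolynomial.eval (p n) (f.poly i) = c * p (n + a) i

lemma eval_bind₁' (f : MvPolynomial (Fin (N + 1)) K) (g : Fin (N + 1) → MvPolynomial (Fin (N + 1)) K)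
    (x : Fin (N + 1) → K) :
    MvPolynomial.eval x (bind₁ g f) = MvPolynomial.eval (fun i => MvPolynomial.eval x (g i)) f := by
  simp only [← coe_aeval_eq_eval]
  exact aeval_bind₁ _ _ _

variable {p : ℕ → Fin (N + 1) → K}

lemma eval_comp_shift {f g : RatMap K N} {a b : ℕ} (hf : Shifts f p a) (hg : Shifts g p b) (n : ℕ) :
    ∃ c : K, c ≠ 0 ∧ ∀ i, MvPolynomial.eval (p n) (bind₁ g.poly (f.poly i)) = c * p (n + (b + a)) i := by
  obtain ⟨c, hc, h1⟩ := hg n
  obtain ⟨c', hc', h2⟩ := hf (n + b)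
  refine ⟨c ^ f.deg * c', mul_ne_zero (pow_ne_zero _ hc) hc', fun i => ?_⟩
  rw [eval_bind₁', funext h1, eval_scale (f.homog i), h2 i, ← add_assoc]
  ring

lemma exists_comp (hp : ∀ n, p n ≠ 0) {f g : RatMap K N} {a b : ℕ} (hf : Shifts f p a)
    (hg : Shifts g p b) :
    ∃ h : RatMap K N, f.IsComp g h ∧ h.deg ≤ f.deg * g.deg ∧ Shifts h p (b + a) := by
  have hT : ∀ i, (bind₁ g.poly (f.poly i)).IsHomogeneous (g.deg * f.deg) := by
    intro i
    exact (f.homog i).aeval g.poly g.homog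
  have h0 : ∃ i, bind₁ g.poly (f.poly i) ≠ 0 := by
    obtain ⟨c, hc, h1⟩ := eval_comp_shift hf hg 0
    obtain ⟨i, hi⟩ := Function.ne_iff.mp (hp (0 + (b + a)))
    refine ⟨i, fun h => ?_⟩
    have := h1 i
    rw [h, map_zero] at this
    exact (mul_ne_zero hc hi) this.symm
  obtain ⟨h, A, hA, hh, hd⟩ := exists_reduce _ hT h0
  refine ⟨h, ⟨A, hA, hh⟩, by rw [mul_comm]; exact hd, ?_⟩
  intro n
  obtain ⟨c, hc, h1⟩ := eval_comp_shift hf hg n
  have h2 : ∀ i, MvPolynomial.eval (p n) A * MvPolynomial.eval (p n) (h.poly i)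
      = c * p (n + (b + a)) i := by
    intro i
    rw [← h1 i, hh i, map_mul]
  have hA' : MvPolynomial.eval (p n) A ≠ 0 := by
    intro h3
    obtain ⟨i, hi⟩ := Function.ne_iff.mp (hp (n + (b + a)))
    have := h2 i
    rw [h3, zero_mul] at this
    exact (mul_ne_zero hc hi) this.symm
  refine ⟨(MvPolynomial.eval (p n) A)⁻¹ * c, mul_ne_zero (inv_ne_zero hA') hc, fun i => ?_⟩
  rw [mul_assoc, ← h2 i, ← mul_assoc, inv_mul_cancel₀ hA', one_mul]

/-- two maps with the same values along a Zariski dense sequence have the same degree -/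
lemma deg_eq_of_shifts (hd : ZDense p) {f g : RatMap K N} {a : ℕ}
    (hf : Shifts f p a) (hg : Shifts g p a) : f.deg = g.deg := by
  have h1 : ∀ i j, f.poly i * g.poly j = f.poly j * g.poly i := by
    intro i j
    have h2 : f.poly i * g.poly j - f.poly j * g.poly i = 0 := by
      refine hd (f.deg + g.deg) _ (((f.homog i).mul (g.homog j)).sub ((f.homog j).mul (g.homog i)))
        (fun n => ?_)
      obtain ⟨c, hc, e1⟩ := hf n
      obtain ⟨c', hc', e2⟩ := hg n
      rw [map_sub, map_mul, map_mul, e1, e1, e2, e2]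
      ring
    exact sub_eq_zero.mp h2
  obtain ⟨j, hj⟩ := g.exists_ne
  have hfj : f.poly j ≠ 0 := by
    intro h
    obtain ⟨i, hi⟩ := f.exists_ne
    have := h1 i j
    rw [h, zero_mul] at this
    exact (mul_ne_zero hi hj) this
  exact deg_eq_of_proportional f g hj hfj (fun i => by rw [mul_comm, h1 i j])

lemma shifts_id {f : RatMap K N} (hf : f.poly = X) : Shifts f p 0 := by
  intro n
  refine ⟨1, one_ne_zero, fun i => ?_⟩
  rw [hf, eval_X, one_mul, add_zero]

/-- existence of the iterates in lowest terms -/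
lemma exists_iterates (hN : 1 ≤ N) (hp : ∀ n, p n ≠ 0) {f : RatMap K N} (hf : Shifts f p 1) :
    ∃ F : ℕ → RatMap K N, (F 0).poly = X ∧ (∀ n, f.IsComp (F n) (F (n + 1))) ∧
      ∀ n, Shifts (F n) p n := by
  classical
  obtain ⟨ident, hid⟩ := exists_id (K := K) hN
  have step : ∀ (n : ℕ) (g : {g : RatMap K N // Shifts g p n}),
      ∃ h : {h : RatMap K N // Shifts h p (n + 1)}, f.IsComp g.1 h.1 := by
    intro n g
    obtain ⟨h, h1, h2, h3⟩ := exists_comp hp hf g.2
    exact ⟨⟨h, h3⟩, h1⟩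
  choose next hnext using step
  let G : (n : ℕ) → {g : RatMap K N // Shifts g p n} := fun n =>
    Nat.rec (motive := fun n => {g : RatMap K N // Shifts g p n}) ⟨ident, shifts_id hid⟩
      (fun n g => next n g) n
  refine ⟨fun n => (G n).1, hid, fun n => hnext n (G n), fun n => (G n).2⟩

lemma deg_submul (hd : ZDense p) (hp : ∀ n, p n ≠ 0) {F : ℕ → RatMap K N}
    (hF : ∀ n, Shifts (F n) p n) (m n : ℕ) : (F (m + n)).deg ≤ (F m).deg * (F n).deg := by
  obtain ⟨h, h1, h2, h3⟩ := exists_comp hp (hF m) (hF n)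
  rw [add_comm] at h3
  rw [deg_eq_of_shifts hd (hF (m + n)) h3]
  exact h2

/-- existence of the dynamical degree, with a lower bound -/
lemma exists_dynDegree (hd : ZDense p) (hp : ∀ n, p n ≠ 0) {F : ℕ → RatMap K N}
    (hF : ∀ n, Shifts (F n) p n) {ρ : ℝ} (hρ : 1 < ρ) (hlow : ∀ n, ρ ^ n ≤ (F n).deg) :
    ∃ δ : ℝ, ρ ≤ δ ∧ Filter.Tendsto (fun n : ℕ => ((F n).deg : ℝ) ^ (1 / (n : ℝ)))
      Filter.atTop (nhds δ) := by
  have hpos : ∀ n, (0 : ℝ) < (F n).deg := fun n => lt_of_lt_of_le (by positivity) (hlow n)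
  have hsub : Subadditive (fun n => Real.log ((F n).deg : ℝ)) := by
    intro m n
    rw [← Real.log_mul (hpos m).ne' (hpos n).ne']
    apply Real.log_le_log (hpos _)
    exact_mod_cast deg_submul hd hp hF m n
  have hge : ∀ n : ℕ, 1 ≤ n → Real.log ρ ≤ Real.log ((F n).deg : ℝ) / n := by
    intro n hn
    have hn' : (0 : ℝ) < n := by exact_mod_cast hn
    rw [le_div_iff₀ hn', mul_comm, ← Real.log_pow]
    exact Real.log_le_log (by positivity) (hlow n)
  have hbdd : BddBelow (Set.range fun n : ℕ => Real.log ((F n).deg : ℝ) / n) := by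
    refine ⟨0, ?_⟩
    rintro _ ⟨n, rfl⟩
    rcases Nat.eq_zero_or_pos n with rfl | hn
    · simp
    · exact (Real.log_pos hρ).le.trans (hge n hn)
  have hlim := hsub.tendsto_lim hbdd
  refine ⟨Real.exp hsub.lim, ?_, ?_⟩
  · have h1 : Real.log ρ ≤ hsub.lim := by
      refine ge_of_tendsto hlim ?_
      filter_upwards [Filter.eventually_ge_atTop 1] with n hn
      exact hge n hn
    calc ρ = Real.exp (Real.log ρ) := (Real.exp_log (by linarith)).symm
      _ ≤ _ := Real.exp_le_exp.mpr h1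
  · refine ((Real.continuous_exp.tendsto _).comp hlim).congr' ?_
    filter_upwards [Filter.eventually_ge_atTop 1] with n hn
    simp only [Function.comp]
    rw [Real.rpow_def_of_pos (hpos n)]
    congr 1
    ring

/-- density implies dominance -/
lemma dominant_of_dense (hN : 1 ≤ N) (hd : ZDense p) {f : RatMap K N} (hf : Shifts f p 1) :
    f.Dominant := by
  intro m G hG h0
  -- a linear form vanishing at `p 0`
  obtain ⟨L, hL1, hL2, hL0⟩ : ∃ L : MvPolynomial (Fin (N + 1)) K, L.IsHomogeneous 1 ∧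
      MvPolynomial.eval (p 0) L = 0 ∧ L ≠ 0 := by
    let j : Fin (N + 1) := ⟨1, by omega⟩
    have hj0 : j ≠ 0 := by
      intro h
      have h2 : (1 : ℕ) = 0 := congrArg Fin.val h
      omega
    by_cases h : p 0 0 = 0
    · exact ⟨X 0, isHomogeneous_X _ _, by rw [eval_X, h], X_ne_zero 0⟩
    · refine ⟨C (p 0 0) * X j - C (p 0 j) * X 0,
        (isHomogeneous_C_mul_X _ _).sub (isHomogeneous_C_mul_X _ _), by simp; ring, ?_⟩
      intro h1
      have h2 := congrArg (MvPolynomial.eval (fun i => if i = j then (1 : K) else 0)) h1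
      simp [hj0.symm] at h2
      exact h h2
  have hGL : G * L = 0 := by
    refine hd (m + 1) _ (hG.mul hL1) (fun n => ?_)
    rw [map_mul]
    rcases n with _ | n
    · rw [hL2, mul_zero]
    · have h1 := congrArg (MvPolynomial.eval (p n)) h0
      rw [map_zero, eval_bind₁'] at h1
      obtain ⟨c, hc, h2⟩ := hf n
      rw [funext h2, eval_scale hG] at h1
      rcases mul_eq_zero.mp h1 with h3 | h3
      · exact absurd h3 (pow_ne_zero _ hc)
      · rw [h3, zero_mul]
  exact (mul_eq_zero.mp hGL).resolve_right hL0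

end Pool.Agent.MPa67235
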