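import Mathlib
import Pool.Agent.MPa67235.Iterate

/-!
# Exponential growth of the degrees from a semiconjugacy to a map of degree 4 on the line
-/

namespace Pool.Agent.MPa67235

open MvPolynomial

variable {K : Type*} [Field K] {N : ℕ}

/-- iterates of `[t : s] ↦ [t (t - 8 s)³ : 64 (t + s)³ s]` on a pair of polynomials -/
noncomputable def lat (A B : MvPolynomial (Fin (N + 1)) K) :
    ℕ → MvPolynomial (Fin (N + 1)) K × MvPolynomial (Fin (N + 1)) K
  | 0 => (A, B)
  | n + 1 => ((lat A B n).1 * ((lat A B n).1 - C 8 * (lat A B n).2) ^ 3,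
      C 64 * (((lat A B n).1 + (lat A B n).2) ^ 3 * (lat A B n).2))

variable {A B : MvPolynomial (Fin (N + 1)) K} {e : ℕ}

lemma lat_homog (hA : A.IsHomogeneous e) (hB : B.IsHomogeneous e) (n : ℕ) :
    (lat A B n).1.IsHomogeneous (4 ^ n * e) ∧ (lat A B n).2.IsHomogeneous (4 ^ n * e) := by
  induction n with
  | zero => simpa [lat] using ⟨hA, hB⟩
  | succ n ih =>
    obtain ⟨h1, h2⟩ := ih
    have e1 : 4 ^ n * e + (4 ^ n * e) * 3 = 4 ^ (n + 1) * e := by ring
    have e2 : 0 + ((4 ^ n * e) * 3 + 4 ^ n * e) = 4 ^ (n + 1) * e := by ring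
    refine ⟨?_, ?_⟩
    · have := h1.mul ((h1.sub (h2.C_mul 8)).pow 3)
      rwa [e1] at this
    · have := (isHomogeneous_C (Fin (N + 1)) (64 : K)).mul (((h1.add h2).pow 3).mul h2)
      rwa [e2] at this

lemma isRelPrime_step [CharZero K] {a b : MvPolynomial (Fin (N + 1)) K} (h : IsRelPrime a b) :
    IsRelPrime (a * (a - C 8 * b) ^ 3) (C 64 * ((a + b) ^ 3 * b)) := by
  have u64 : IsUnit (C 64 : MvPolynomial (Fin (N + 1)) K) :=
    (IsUnit.mk0 (64 : K) (by norm_num)).map C
  have u9 : IsUnit (C 9 : MvPolynomial (Fin (N + 1)) K) :=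
    (IsUnit.mk0 (9 : K) (by norm_num)).map C
  have h1 : IsRelPrime a (a + b) := by
    intro d hd1 hd2
    exact h hd1 ((dvd_add_right hd1).mp hd2)
  have h2 : IsRelPrime (a - C 8 * b) b := by
    intro d hd1 hd2
    refine h ?_ hd2
    have : a = (a - C 8 * b) + C 8 * b := by ring
    rw [this]
    exact dvd_add hd1 (hd2.mul_left _)
  have h3 : IsRelPrime (a - C 8 * b) (a + b) := by
    intro d hd1 hd2
    have h4 : d ∣ C 9 * b := by
      have : C 9 * b = (a + b) - (a - C 8 * b) := by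
        have : (C 9 : MvPolynomial (Fin (N + 1)) K) = 1 + C 8 := by
          rw [← C_1, ← C_add]; norm_num
        rw [this]; ring
      rw [this]
      exact dvd_sub hd2 hd1
    have h5 : d ∣ b := (u9.dvd_mul_left).mp h4
    refine h ?_ h5
    have : a = (a + b) - b := by ring
    rw [this]
    exact dvd_sub hd2 h5
  have h4 : IsRelPrime (a * (a - C 8 * b) ^ 3) ((a + b) ^ 3 * b) := by
    refine IsRelPrime.mul_left ?_ ?_
    · exact IsRelPrime.mul_right h1.pow_right h
    · exact (IsRelPrime.mul_right h3.pow_right h2).pow_left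
  exact IsRelPrime.mul_right (fun d _ hd2 => isUnit_of_dvd_unit hd2 u64) h4

lemma lat_relPrime [CharZero K] (h : IsRelPrime A B) (n : ℕ) :
    IsRelPrime (lat A B n).1 (lat A B n).2 := by
  induction n with
  | zero => exact h
  | succ n ih => exact isRelPrime_step ih

variable {p : ℕ → Fin (N + 1) → K}

/-- evaluation of the iterates along the orbit -/
lemma lat_eval [CharZero K] {t : ℕ → K} (hB : ∀ n, MvPolynomial.eval (p n) B ≠ 0)
    (ht : ∀ n, MvPolynomial.eval (p n) A = t n * MvPolynomial.eval (p n) B)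
    (hne : ∀ n, t n + 1 ≠ 0)
    (hrec : ∀ n, t (n + 1) * (64 * (t n + 1) ^ 3) = t n * (t n - 8) ^ 3) (n j : ℕ) :
    MvPolynomial.eval (p j) (lat A B n).2 ≠ 0 ∧
    MvPolynomial.eval (p j) (lat A B n).1 = t (j + n) * MvPolynomial.eval (p j) (lat A B n).2 := by
  induction n with
  | zero => exact ⟨hB j, ht j⟩
  | succ n ih =>
    obtain ⟨h1, h2⟩ := ih
    have h3 := hne (j + n)
    have h4 := hrec (j + n)
    simp only [lat, map_mul, map_add, map_sub, map_pow, eval_C]
    rw [h2]
    set b := MvPolynomial.eval (p j) (lat A B n).2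
    have h5 : t (j + n) * b + b = (t (j + n) + 1) * b := by ring
    have h6 : t (j + n) * b - 8 * b = (t (j + n) - 8) * b := by ring
    rw [h5, h6]
    constructor
    · exact mul_ne_zero (by norm_num) (mul_ne_zero (pow_ne_zero 3 (mul_ne_zero h3 h1)) h1)
    · rw [show j + (n + 1) = j + n + 1 by ring]
      linear_combination -(b ^ 4) * h4

/-- the degree of the iterates is at least `4 ^ n` -/
theorem deg_lower [CharZero K] (hd : ZDense p) {t : ℕ → K} (hA : A.IsHomogeneous e)
    (hBh : B.IsHomogeneous e) (hco : IsRelPrime A B)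
    (hB : ∀ n, MvPolynomial.eval (p n) B ≠ 0)
    (ht : ∀ n, MvPolynomial.eval (p n) A = t n * MvPolynomial.eval (p n) B)
    (hne : ∀ n, t n + 1 ≠ 0)
    (hrec : ∀ n, t (n + 1) * (64 * (t n + 1) ^ 3) = t n * (t n - 8) ^ 3)
    (ht01 : t 0 ≠ t 1) {f : RatMap K N} {n : ℕ} (hf : Shifts f p n) : 4 ^ n ≤ f.deg := by
  -- `e > 0`
  have he : 0 < e := by
    rcases Nat.eq_zero_or_pos e with h | h
    · exfalso
      subst h
      have hB0 : B ≠ 0 := by
        rintro rfl
        exact hB 0 (map_zero _)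
      have h1 := (totalDegree_eq_zero_iff_eq_C).mp (hBh.totalDegree hB0)
      have h2 : A = C (coeff 0 A) := by
        by_cases hA0 : A = 0
        · rw [hA0]; simp
        · exact (totalDegree_eq_zero_iff_eq_C).mp (hA.totalDegree hA0)
      have e0 := ht 0
      have e1 := ht 1
      have b0 := hB 0
      rw [h1, eval_C] at b0
      rw [h2, h1, eval_C, eval_C] at e0 e1
      exact ht01 (mul_right_cancel₀ b0 (e0.symm.trans e1))
    · exact h
  set An := (lat A B n).1 with hAn
  set Bn := (lat A B n).2 with hBn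
  obtain ⟨hAnh, hBnh⟩ := lat_homog hA hBh n
  have hprime : IsRelPrime An Bn := lat_relPrime hco n
  have hev := lat_eval hB ht hne hrec n
  -- the key identity
  have hkey : bind₁ f.poly A * Bn - bind₁ f.poly B * An = 0 := by
    have k1 : (bind₁ f.poly A).IsHomogeneous (f.deg * e) := hA.aeval f.poly f.homog
    have k2 : (bind₁ f.poly B).IsHomogeneous (f.deg * e) := hBh.aeval f.poly f.homog
    refine hd _ _ ((k1.mul hBnh).sub (k2.mul hAnh)) (fun j => ?_)
    obtain ⟨c, hc, h1⟩ := hf j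
    obtain ⟨h2, h3⟩ := hev j
    rw [map_sub, map_mul, map_mul, eval_bind₁', eval_bind₁', funext h1, eval_scale hA,
      eval_scale hBh, ht (j + n), h3]
    ring
  have hdvd : Bn ∣ bind₁ f.poly B := by
    have h1 : Bn ∣ bind₁ f.poly B * An := ⟨bind₁ f.poly A, by linear_combination -hkey⟩
    exact hprime.symm.dvd_of_dvd_mul_right h1
  have hBf : bind₁ f.poly B ≠ 0 := by
    intro h
    obtain ⟨c, hc, h1⟩ := hf 0
    have h2 := congrArg (MvPolynomial.eval (p 0)) h
    rw [map_zero, eval_bind₁', funext h1, eval_scale hBh] at h2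
    exact (mul_ne_zero (pow_ne_zero _ hc) (hB _)) h2
  obtain ⟨c, hc⟩ := hdvd
  have hBn0 : Bn ≠ 0 := by
    intro h; rw [h, zero_mul] at hc; exact hBf hc
  have hc0 : c ≠ 0 := by
    intro h; rw [h, mul_zero] at hc; exact hBf hc
  have h1 := totalDegree_mul_of_isDomain hBn0 hc0
  have k2 : (bind₁ f.poly B).IsHomogeneous (f.deg * e) := hBh.aeval f.poly f.homog
  rw [← hc, k2.totalDegree hBf, hBnh.totalDegree hBn0] at h1
  have h2 : 4 ^ n * e ≤ f.deg * e := by omega
  exact Nat.le_of_mul_le_mul_right h2 he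

end Pool.Agent.MPa67235
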