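import Mathlib
import Pool.Agent.MPa67235.Defs

/-!
# The absolute Weil height of a primitive integer vector
-/

namespace Pool.Agent.MPa67235

open NumberField Height

/-- the height, over any number field, of a vector of coprime integers -/
lemma mulHeight_intCast {K : Type*} [Field K] [NumberField K] {ι : Type*} [Fintype ι] [Nonempty ι]
    {x : ι → ℤ} (hx : Finset.univ.gcd x = 1) :
    mulHeight (fun i => ((x i : ℤ) : K)) = (⨆ i, (|x i| : ℝ)) ^ Module.finrank ℚ K := by
  have hx₀ : (fun i => ((x i : ℤ) : K)) ≠ 0 := by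
    intro h
    have h1 : ∀ i, x i = 0 := by
      intro i
      have := congrFun h i
      simpa using this
    have h2 : Finset.univ.gcd x = 0 := Finset.gcd_eq_zero_iff.mpr (fun i _ => h1 i)
    rw [h2] at hx
    exact zero_ne_one hx
  have hfin : ∀ v : FinitePlace K, ⨆ i, v ((x i : ℤ) : K) = 1 := by
    intro v
    have hv : IsNonarchimedean (v ·) := FinitePlace.add_le v
    have H (n : ℤ) : v n ≤ 1 := IsNonarchimedean.apply_intCast_le_one hv
    obtain ⟨f, hf⟩ := Finset.gcd_eq_sum_mul .univ x
    have hf' : (1 : ℝ) = v ((∑ i, x i * f i : ℤ) : K) := by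
      rw [← hf, hx]; simp
    rw [Int.cast_sum] at hf'
    simp_rw [Int.cast_mul] at hf'
    replace hf' := hf'.trans_le hv.apply_sum_univ_le
    obtain ⟨i, hi⟩ := exists_eq_ciSup_of_finite (f := fun i ↦ v ((x i : K) * (f i : K)))
    rw [← hi, map_mul] at hf'
    replace hf' : 1 ≤ v (x i) := hf'.trans <| mul_le_of_le_one_right (apply_nonneg v _) (H _)
    exact le_antisymm (ciSup_le (H <| x ·)) <| Finite.le_ciSup_of_le i hf'
  rw [NumberField.mulHeight_eq hx₀]
  simp only [hfin, finprod_one, mul_one]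
  have hinf : ∀ v : InfinitePlace K, (⨆ i, v ((x i : ℤ) : K)) = ⨆ i, (|x i| : ℝ) := by
    intro v
    congr 1
    funext i
    simp [Int.norm_eq_abs]
  simp only [hinf]
  rw [Finset.prod_pow_eq_pow_sum, InfinitePlace.sum_mult_eq]

/-- For a vector of coprime integers the absolute logarithmic Weil height is
`log max_i |a_i|`. -/
lemma weilHeight_intCast {N : ℕ} {a : Fin (N + 1) → ℤ} (ha : Finset.univ.gcd a = 1) :
    weilHeight (fun i => ((a i : ℤ) : Qbar)) = Real.log (⨆ i, (|a i| : ℝ)) := by
  unfold weilHeight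
  set x : Fin (N + 1) → Qbar := fun i => ((a i : ℤ) : Qbar) with hx
  have h1 : (fun i => (⟨x i, IntermediateField.subset_adjoin ℚ _ ⟨i, rfl⟩⟩ : coordField x))
      = fun i => ((a i : ℤ) : coordField x) := by
    funext i
    apply Subtype.ext
    simp [hx]
  rw [h1, logHeight_eq_log_mulHeight, mulHeight_intCast ha, Real.log_pow]
  have h2 : (Module.finrank ℚ (coordField x) : ℝ) ≠ 0 := by
    exact_mod_cast (Module.finrank_pos (R := ℚ) (M := coordField x)).ne'
  field_simp

/-- ... and it agrees with Mathlib's height over `ℚ`. -/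
lemma weilHeight_eq_logHeight {N : ℕ} {a : Fin (N + 1) → ℤ} (ha : Finset.univ.gcd a = 1) :
    weilHeight (fun i => ((a i : ℤ) : Qbar)) = logHeight (fun i => ((a i : ℤ) : ℚ)) := by
  rw [weilHeight_intCast ha, logHeight_eq_log_mulHeight, mulHeight_intCast ha]
  simp

end Pool.Agent.MPa67235
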