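import Mathlib
import Pool.Agent.MPa67235.LowerDegree
import Pool.Agent.MPa67235.WeilHeight
import Pool.Agent.MPa67235.Density

/-!
# The counterexample
-/

namespace Pool.Agent.MPa67235

open MvPolynomial Height

/-! ### primitive integer coordinates -/

lemma exists_primitive (x : Fin 4 → ℚ) (hx : x ≠ 0) :
    ∃ a : Fin 4 → ℤ, Finset.univ.gcd a = 1 ∧ ∃ c : ℚ, c ≠ 0 ∧ ∀ i, (a i : ℚ) = c * x i := by
  classical
  set D : ℕ := ∏ j, (x j).den with hD
  have hD0 : (D : ℚ) ≠ 0 := by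
    rw [hD]
    exact_mod_cast Finset.prod_ne_zero_iff.mpr (fun j _ => (x j).den_nz)
  have hb : ∀ i, ∃ b : ℤ, (b : ℚ) = D * x i := by
    intro i
    obtain ⟨k, hk⟩ : (x i).den ∣ D := Finset.dvd_prod_of_mem _ (Finset.mem_univ i)
    refine ⟨k * (x i).num, ?_⟩
    push_cast
    rw [hk]
    push_cast
    have h1 : ((x i).den : ℚ) * x i = (x i).num := by
      exact Rat.den_mul_eq_num (x i)
    rw [← h1]
    ring
  choose b hb using hb
  obtain ⟨a, ha1, ha2⟩ := Finset.extract_gcd b Finset.univ_nonempty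
  have hg0 : (Finset.univ.gcd b : ℤ) ≠ 0 := by
    intro h
    rw [Finset.gcd_eq_zero_iff] at h
    apply hx
    funext i
    have h1 := hb i
    rw [h i (Finset.mem_univ i), Int.cast_zero] at h1
    exact (mul_eq_zero.mp h1.symm).resolve_left hD0
  refine ⟨a, ha2, (D : ℚ) / (Finset.univ.gcd b : ℤ), ?_, fun i => ?_⟩
  · exact div_ne_zero hD0 (by exact_mod_cast hg0)
  · have h1 := hb i
    rw [ha1 i (Finset.mem_univ i)] at h1
    push_cast at h1
    have hg0' : ((Finset.univ.gcd b : ℤ) : ℚ) ≠ 0 := by exact_mod_cast hg0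
    field_simp
    linarith

lemma pt_ne (n : ℕ) : pt n ≠ 0 := by
  intro h
  have := congrFun h 0
  simp [pt] at this

/-- primitive integer coordinates of the `n`-th point -/
noncomputable def aa (n : ℕ) : Fin 4 → ℤ := (exists_primitive (pt n) (pt_ne n)).choose

lemma aa_gcd (n : ℕ) : Finset.univ.gcd (aa n) = 1 :=
  (exists_primitive (pt n) (pt_ne n)).choose_spec.1

lemma aa_eq (n : ℕ) : ∃ c : ℚ, c ≠ 0 ∧ ∀ i, (aa n i : ℚ) = c * pt n i :=
  (exists_primitive (pt n) (pt_ne n)).choose_spec.2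

/-- the orbit in `ℙ³(ℚ̄)` -/
noncomputable def PP (n : ℕ) : Fin 4 → Qbar := fun i => ((aa n i : ℤ) : Qbar)

lemma PP_ne (n : ℕ) : PP n ≠ 0 := by
  intro h
  have h1 : ∀ i, aa n i = 0 := by
    intro i
    have := congrFun h i
    simpa [PP] using this
  have h2 : Finset.univ.gcd (aa n) = 0 := Finset.gcd_eq_zero_iff.mpr (fun i _ => h1 i)
  rw [aa_gcd] at h2
  exact one_ne_zero h2

/-- evaluation of rational polynomials at rational points, in `ℚ̄` -/
lemma eval_map_PP (G : MvPolynomial (Fin 4) ℚ) (n : ℕ) :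
    MvPolynomial.eval (PP n) (map (algebraMap ℚ Qbar) G)
      = algebraMap ℚ Qbar (MvPolynomial.eval (fun i => (aa n i : ℚ)) G) := by
  rw [eval_map]
  have h1 : PP n = fun i => algebraMap ℚ Qbar (aa n i : ℚ) := by
    funext i
    simp [PP]
  rw [h1]
  have := MvPolynomial.eval₂_comp_left (algebraMap ℚ Qbar) (RingHom.id ℚ) (fun i => (aa n i : ℚ)) G
  rw [MvPolynomial.eval]
  simp only [coe_eval₂Hom]
  rw [this]
  rfl

/-- Zariski density over `ℚ̄` -/
lemma PP_dense : ZDense PP := by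
  classical
  intro m G hG h0
  -- coordinates with respect to a `ℚ`-basis of `ℚ̄`
  let B := Module.Basis.ofVectorSpace ℚ Qbar
  have key : ∀ j, ∀ s ∈ G.support, B.repr (coeff s G) j = 0 := by
    intro j
    let Gj : MvPolynomial (Fin 4) ℚ := ∑ s ∈ G.support, monomial s (B.repr (coeff s G) j)
    have hGj : Gj.IsHomogeneous m := by
      refine IsHomogeneous.sum G.support _ m (fun s hs => ?_)
      refine isHomogeneous_monomial _ ?_
      exact (hG.degree_eq_sum_deg_support hs).symm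
    have hval : ∀ n, MvPolynomial.eval (pt n) Gj = 0 := by
      intro n
      obtain ⟨c, hc, hcn⟩ := aa_eq n
      have h1 : MvPolynomial.eval (fun i => (aa n i : ℚ)) Gj = 0 := by
        have h2 := h0 n
        rw [eval_eq] at h2
        have h3 : ∀ s : Fin 4 →₀ ℕ, ∏ i ∈ s.support, PP n i ^ s i
            = algebraMap ℚ Qbar (∏ i ∈ s.support, (aa n i : ℚ) ^ s i) := by
          intro s
          rw [map_prod]
          refine Finset.prod_congr rfl (fun i _ => ?_)
          rw [map_pow]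
          simp [PP]
        have h4 : ∑ s ∈ G.support, (∏ i ∈ s.support, (aa n i : ℚ) ^ s i) • coeff s G = 0 := by
          rw [← h2]
          refine Finset.sum_congr rfl (fun s _ => ?_)
          rw [h3, Algebra.smul_def, mul_comm]
        have h5 := congrArg (fun z => B.repr z j) h4
        simp only [map_sum, map_smul, Finsupp.coe_finsetSum, Finset.sum_apply, Finsupp.smul_apply,
          smul_eq_mul, map_zero, Finsupp.coe_zero, Pi.zero_apply] at h5
        rw [← h5]
        simp only [Gj, map_sum, eval_monomial]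
        refine Finset.sum_congr rfl (fun s _ => ?_)
        rw [mul_comm]
        rfl
      rw [funext hcn, eval_scale hGj] at h1
      exact (mul_eq_zero.mp h1).resolve_left (pow_ne_zero _ hc)
    have hz := eq_zero_of_vanish hGj hval
    intro s hs
    have h6 := congrArg (coeff s) hz
    simp only [Gj, coeff_sum, coeff_monomial, coeff_zero] at h6
    rw [Finset.sum_ite_eq' G.support s] at h6
    rwa [if_pos hs] at h6
  ext s
  rw [coeff_zero]
  by_contra hs
  have hs' : s ∈ G.support := mem_support_iff.mpr hs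
  apply hs
  have : B.repr (coeff s G) = 0 := by
    ext j
    exact key j s hs'
  exact B.repr.map_eq_zero_iff.mp this

/-! ### The rational map -/

lemma shifts_of_raw {K : Type*} [Field K] {N : ℕ} {p : ℕ → Fin (N + 1) → K} (hp : ∀ n, p n ≠ 0)
    {T : Fin (N + 1) → MvPolynomial (Fin (N + 1)) K} {a : ℕ}
    (hT : ∀ n, ∃ c : K, c ≠ 0 ∧ ∀ i, MvPolynomial.eval (p n) (T i) = c * p (n + a) i)
    {f : RatMap K N} {A : MvPolynomial (Fin (N + 1)) K} (hTf : ∀ i, T i = A * f.poly i) :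
    Shifts f p a := by
  intro n
  obtain ⟨c, hc, h1⟩ := hT n
  have h2 : ∀ i, MvPolynomial.eval (p n) A * MvPolynomial.eval (p n) (f.poly i)
      = c * p (n + a) i := by
    intro i
    rw [← h1 i, hTf i, map_mul]
  have hA' : MvPolynomial.eval (p n) A ≠ 0 := by
    intro h3
    obtain ⟨i, hi⟩ := Function.ne_iff.mp (hp (n + a))
    have := h2 i
    rw [h3, zero_mul] at this
    exact (mul_ne_zero hc hi) this.symm
  refine ⟨(MvPolynomial.eval (p n) A)⁻¹ * c, mul_ne_zero (inv_ne_zero hA') hc, fun i => ?_⟩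
  rw [mul_assoc, ← h2 i, ← mul_assoc, inv_mul_cancel₀ hA', one_mul]

lemma exists_ratMap : ∃ f : RatMap Qbar 3, Shifts f PP 1 := by
  obtain ⟨d, T, hT, hTn⟩ := exists_next
  let T' : Fin 4 → MvPolynomial (Fin 4) Qbar := fun i => map (algebraMap ℚ Qbar) (T i)
  have hT' : ∀ i, (T' i).IsHomogeneous d := fun i => (hT i).map _
  have hraw : ∀ n, ∃ c : Qbar, c ≠ 0 ∧ ∀ i, MvPolynomial.eval (PP n) (T' i) = c * PP (n + 1) i := by
    intro n
    obtain ⟨c, hc, h1⟩ := hTn n
    obtain ⟨c₁, hc₁, h2⟩ := aa_eq n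
    obtain ⟨c₂, hc₂, h3⟩ := aa_eq (n + 1)
    refine ⟨algebraMap ℚ Qbar (c₁ ^ d * c * c₂⁻¹), ?_, fun i => ?_⟩
    · rw [Ne, map_eq_zero]
      exact mul_ne_zero (mul_ne_zero (pow_ne_zero _ hc₁) hc) (inv_ne_zero hc₂)
    · rw [eval_map_PP, funext h2, eval_scale (hT i), h1 i]
      have h4 : PP (n + 1) i = algebraMap ℚ Qbar (aa (n + 1) i : ℚ) := by simp [PP]
      rw [h4, h3 i, ← map_mul]
      congr 1
      field_simp
  have h0 : ∃ i, T' i ≠ 0 := by
    obtain ⟨c, hc, h1⟩ := hraw 0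
    obtain ⟨i, hi⟩ := Function.ne_iff.mp (PP_ne (0 + 1))
    refine ⟨i, fun h => ?_⟩
    have := h1 i
    rw [h, map_zero] at this
    exact (mul_ne_zero hc hi) this.symm
  obtain ⟨f, A, hA, hTf, -⟩ := exists_reduce T' hT' h0
  exact ⟨f, shifts_of_raw PP_ne hraw hTf⟩

/-! ### The semiconjugacy -/

noncomputable def tt (n : ℕ) : ℚ := X (m3 n) ^ 3 / (-2)

lemma tt_succ (n : ℕ) : tt (n + 1) * (64 * (tt n + 1) ^ 3) = tt n * (tt n - 8) ^ 3 := by
  have hx : X (m3 (n + 1)) = X (m3 n) * (X (m3 n) ^ 3 + 16) / (4 * (X (m3 n) ^ 3 - 2)) := by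
    rw [m3_succ]
    have e := px_double (not_torsion (m3_ne n))
    rw [← two_smul ℕ (m3 n • Q₀), smul_smul] at e
    exact e
  have hy : X (m3 n) ^ 3 - 2 ≠ 0 := by
    rw [← Y_sq (m3_ne n)]; exact pow_ne_zero 2 (Y_ne (m3_ne n))
  simp only [tt]
  rw [hx]
  field_simp
  ring

lemma tt_add_one_ne (n : ℕ) : tt n + 1 ≠ 0 := by
  have hy : X (m3 n) ^ 3 - 2 ≠ 0 := by
    rw [← Y_sq (m3_ne n)]; exact pow_ne_zero 2 (Y_ne (m3_ne n))
  have : tt n + 1 = (X (m3 n) ^ 3 - 2) / (-2) := by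
    simp only [tt]; field_simp; ring
  rw [this]
  exact div_ne_zero hy (by norm_num)

lemma tt_zero_ne_one : tt 0 ≠ tt 1 := by
  intro h
  have h1 : X (m3 0) ^ 3 = X (m3 1) ^ 3 := by
    simp only [tt] at h
    field_simp at h
    linarith
  have h2 := (Odd.strictMono_pow (R := ℚ) (n := 3) (by decide)).injective h1
  exact X_inj (m3_ne 0) (m3_ne 1) (by norm_num [m3]) h2

lemma four_pow_le {f : RatMap Qbar 3} {n : ℕ} (hf : Shifts f PP n) : 4 ^ n ≤ f.deg := by
  obtain ⟨d, N₀, D₀, hN₀, hD₀, h⟩ := isRat_T3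
  let T' : Fin 2 → MvPolynomial (Fin 4) Qbar :=
    fun i => map (algebraMap ℚ Qbar) (![N₀, D₀] i)
  have hT' : ∀ i, (T' i).IsHomogeneous d := by
    intro i
    fin_cases i
    · exact hN₀.map _
    · exact hD₀.map _
  have hvalD : ∀ n, MvPolynomial.eval (PP n) (T' 1) ≠ 0 := by
    intro n
    show MvPolynomial.eval (PP n) (map (algebraMap ℚ Qbar) D₀) ≠ 0
    obtain ⟨c, hc, h2⟩ := aa_eq n
    rw [eval_map_PP, funext h2, eval_scale hD₀, Ne, map_eq_zero]
    exact mul_ne_zero (pow_ne_zero _ hc) (h n).1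
  have hvalN : ∀ n, MvPolynomial.eval (PP n) (T' 0)
      = algebraMap ℚ Qbar (tt n) * MvPolynomial.eval (PP n) (T' 1) := by
    intro n
    show MvPolynomial.eval (PP n) (map (algebraMap ℚ Qbar) N₀)
      = algebraMap ℚ Qbar (tt n) * MvPolynomial.eval (PP n) (map (algebraMap ℚ Qbar) D₀)
    obtain ⟨c, hc, h2⟩ := aa_eq n
    rw [eval_map_PP, eval_map_PP, funext h2, eval_scale hD₀, eval_scale hN₀, ← map_mul]
    congr 1
    have h3 := (h n).1
    have h4 : tt n = MvPolynomial.eval (pt n) N₀ / MvPolynomial.eval (pt n) D₀ := (h n).2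
    rw [h4]
    field_simp
  have h0 : ∃ i, T' i ≠ 0 := ⟨1, fun h1 => hvalD 0 (by rw [h1, map_zero])⟩
  obtain ⟨e, F, A₀, hA₀, hTF, hF, -, hco⟩ := exists_coprime_tuple T' hT' h0
  have hA₀v : ∀ n, MvPolynomial.eval (PP n) A₀ ≠ 0 := by
    intro n h1
    apply hvalD n
    rw [hTF 1, map_mul, h1, zero_mul]
  refine deg_lower (A := F 0) (B := F 1) PP_dense (t := fun n => algebraMap ℚ Qbar (tt n))
    (hF 0) (hF 1) ?_ ?_ ?_ ?_ ?_ ?_ hf
  · intro g hg0 hg1
    refine hco g (fun i => ?_)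
    fin_cases i
    · exact hg0
    · exact hg1
  · intro n h1
    apply hvalD n
    rw [hTF 1, map_mul, h1, mul_zero]
  · intro n
    have h1 := hvalN n
    rw [hTF 0, hTF 1, map_mul, map_mul] at h1
    have h2 := hA₀v n
    have h3 : MvPolynomial.eval (PP n) A₀ * MvPolynomial.eval (PP n) (F 0)
        = MvPolynomial.eval (PP n) A₀ * (algebraMap ℚ Qbar (tt n) * MvPolynomial.eval (PP n) (F 1)) := by
      rw [h1]; ring
    exact mul_left_cancel₀ h2 h3
  · intro n
    have h1 := tt_add_one_ne n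
    show algebraMap ℚ Qbar (tt n) + 1 ≠ 0
    rw [← map_one (algebraMap ℚ Qbar), ← map_add, Ne, map_eq_zero]
    exact h1
  · intro n
    have h1 := congrArg (algebraMap ℚ Qbar) (tt_succ n)
    simpa using h1
  · intro h1
    exact tt_zero_ne_one ((algebraMap ℚ Qbar).injective h1)

/-! ### Heights and growth -/

lemma weilHeight_PP (n : ℕ) : weilHeight (PP n) = logHeight (pt n) := by
  have h1 := weilHeight_eq_logHeight (aa_gcd n)
  obtain ⟨c, hc, h2⟩ := aa_eq n
  have h3 : (fun i => ((aa n i : ℤ) : ℚ)) = c • pt n := by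
    funext i
    rw [h2 i]
    rfl
  rw [h3, logHeight_smul_eq_logHeight _ hc] at h1
  exact h1

end Pool.Agent.MPa67235
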