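import Mathlib
import Pool.Agent.MPa67235.Main

/-!
# The growth `4^n n^4` and the failure of the conjectured law
-/

namespace Pool.Agent.MPa67235

open MvPolynomial Height Filter

lemma m1_sq (n : ℕ) : (m1 n : ℝ) ^ 2 = 4 ^ n * (((n : ℝ) ^ 2 + 3 * n + 6) / 2) ^ 2 := by
  have h1 : (2 : ℝ) * j1 n = (n : ℝ) ^ 2 + 3 * n + 6 := by exact_mod_cast two_mul_j1 n
  have h2 : (j1 n : ℝ) = ((n : ℝ) ^ 2 + 3 * n + 6) / 2 := by linarith
  unfold m1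
  push_cast
  rw [mul_pow, h2, ← pow_mul, mul_comm n 2, pow_mul]
  norm_num

/-- upper and lower bounds by `4^n n^4` -/
theorem growth : ∃ A B : ℝ, 0 < A ∧ 0 < B ∧ ∀ᶠ n : ℕ in atTop,
    A * (4 ^ n * (n : ℝ) ^ 4) ≤ weilHeight (PP n) ∧ weilHeight (PP n) ≤ B * (4 ^ n * (n : ℝ) ^ 4) := by
  obtain ⟨a, b, C, ha, hb, h⟩ := height_growth
  refine ⟨a / 8, 25 * b + |C|, by positivity, by positivity, ?_⟩
  obtain ⟨M, hM⟩ := exists_nat_gt (8 * |C| / a)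
  filter_upwards [eventually_ge_atTop (max M 1)] with n hn
  have hn1 : (1 : ℝ) ≤ n := by exact_mod_cast (le_max_right M 1).trans hn
  have hnM : (M : ℝ) ≤ n := by exact_mod_cast (le_max_left M 1).trans hn
  rw [weilHeight_PP]
  obtain ⟨h1, h2⟩ := h n
  rw [m1_sq] at h1 h2
  have h4 : (1 : ℝ) ≤ 4 ^ n := one_le_pow₀ (by norm_num)
  have h4' : (0 : ℝ) < 4 ^ n := by positivity
  have hn4 : (n : ℝ) ≤ (n : ℝ) ^ 4 := by
    calc (n : ℝ) = (n : ℝ) ^ 1 := (pow_one _).symm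
      _ ≤ (n : ℝ) ^ 4 := pow_le_pow_right₀ hn1 (by norm_num)
  have hC := le_abs_self C
  have hC0 := abs_nonneg C
  have hCn : 8 * |C| < a * n := by
    rw [div_lt_iff₀ ha] at hM
    nlinarith
  constructor
  · have h5 : (n : ℝ) ^ 4 / 4 ≤ (((n : ℝ) ^ 2 + 3 * n + 6) / 2) ^ 2 := by
      have : (n : ℝ) ^ 2 / 2 ≤ ((n : ℝ) ^ 2 + 3 * n + 6) / 2 := by linarith
      calc (n : ℝ) ^ 4 / 4 = ((n : ℝ) ^ 2 / 2) ^ 2 := by ring
        _ ≤ _ := by gcongr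
    have h6 : a * (4 ^ n * ((n : ℝ) ^ 4 / 4)) ≤ a * (4 ^ n * (((n : ℝ) ^ 2 + 3 * n + 6) / 2) ^ 2) := by
      gcongr
    have h7 : 8 * |C| ≤ a * (4 ^ n * (n : ℝ) ^ 4) := by
      calc 8 * |C| ≤ a * n := hCn.le
        _ ≤ a * (1 * (n : ℝ) ^ 4) := by rw [one_mul]; gcongr
        _ ≤ a * (4 ^ n * (n : ℝ) ^ 4) := by gcongr
    nlinarith
  · have h5 : (((n : ℝ) ^ 2 + 3 * n + 6) / 2) ^ 2 ≤ 25 * (n : ℝ) ^ 4 := by
      have : ((n : ℝ) ^ 2 + 3 * n + 6) / 2 ≤ 5 * (n : ℝ) ^ 2 := by nlinarith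
      calc (((n : ℝ) ^ 2 + 3 * n + 6) / 2) ^ 2 ≤ (5 * (n : ℝ) ^ 2) ^ 2 := by
            gcongr
        _ = _ := by ring
    have h6 : b * (4 ^ n * (((n : ℝ) ^ 2 + 3 * n + 6) / 2) ^ 2) ≤ b * (4 ^ n * (25 * (n : ℝ) ^ 4)) := by
      gcongr
    have h7 : |C| * 1 ≤ |C| * (4 ^ n * (n : ℝ) ^ 4) := by
      gcongr
      have : (1 : ℝ) ≤ (n : ℝ) ^ 4 := hn1.trans hn4
      nlinarith
    nlinarith

/-- No law `δ^n n^l (log n)^k` with `l ≤ 3`. -/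
lemma no_law {h : ℕ → ℝ} {A B δ : ℝ} (hA : 0 < A) (hB : 0 < B)
    (hh : ∀ᶠ n : ℕ in atTop, A * (4 ^ n * (n : ℝ) ^ 4) ≤ h n ∧ h n ≤ B * (4 ^ n * (n : ℝ) ^ 4))
    (hδ : 4 ≤ δ) (k : ℤ) (l : ℕ) (hl : l ≤ 3) :
    ¬ Asymp h (fun n => δ ^ n * (n : ℝ) ^ l * Real.log n ^ k) := by
  rintro ⟨c₁, c₂, c₃, hc₁, hc₂, hc₃, hc⟩
  have hδ0 : 0 < δ := by linarith
  set K : ℕ := k.natAbs with hK
  -- large `n`
  have hev : ∀ᶠ n : ℕ in atTop, 3 ≤ n ∧ c₃ ≤ n := by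
    filter_upwards [eventually_ge_atTop 3, eventually_ge_atTop (⌈c₃⌉₊)] with n h1 h2
    exact ⟨h1, (Nat.le_ceil c₃).trans (by exact_mod_cast h2)⟩
  have hlog : ∀ n : ℕ, 3 ≤ n → 1 ≤ Real.log n ∧ Real.log n ≤ n := by
    intro n hn
    have h3 : (3 : ℝ) ≤ n := by exact_mod_cast hn
    constructor
    · rw [Real.le_log_iff_exp_le (by linarith)]
      have := Real.exp_one_lt_d9
      linarith
    · have := Real.log_le_sub_one_of_pos (show (0 : ℝ) < n by linarith)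
      linarith
  rcases hδ.eq_or_lt with h4 | h4
  · -- δ = 4
    subst h4
    have hlim : Tendsto (fun x : ℝ => Real.log x ^ K / x) atTop (nhds 0) := by
      have := Real.isLittleO_pow_log_id_atTop (n := K)
      exact this.tendsto_div_nhds_zero
    have hlim' := (hlim.comp tendsto_natCast_atTop_atTop).eventually
      (gt_mem_nhds (show (0 : ℝ) < c₁ * A by positivity))
    obtain ⟨n, ⟨⟨hn1, hn2⟩, hn3⟩, hn4⟩ := ((hev.and hh).and hlim').exists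
    obtain ⟨hl1, hl2⟩ := hlog n hn1
    have hn0 : (0 : ℝ) < n := by
      have : (3 : ℝ) ≤ n := by exact_mod_cast hn1
      linarith
    have e1 := (hc n hn2).1
    have e2 := hn3.1
    simp only [Function.comp] at hn4
    rw [div_lt_iff₀ hn0] at hn4
    -- (log n)^k ≤ (log n)^K
    have e3 : Real.log n ^ k ≤ Real.log n ^ K := by
      rw [← zpow_natCast]
      exact zpow_le_zpow_right₀ hl1 (by omega)
    have e4 : (n : ℝ) ^ l ≤ (n : ℝ) ^ 3 := pow_le_pow_right₀ (by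
      have : (3 : ℝ) ≤ n := by exact_mod_cast hn1
      linarith) hl
    have e5 : c₁ * (A * (4 ^ n * (n : ℝ) ^ 4)) ≤ 4 ^ n * (n : ℝ) ^ 3 * Real.log n ^ K := by
      calc c₁ * (A * (4 ^ n * (n : ℝ) ^ 4)) ≤ c₁ * h n := by gcongr
        _ ≤ 4 ^ n * (n : ℝ) ^ l * Real.log n ^ k := e1
        _ ≤ 4 ^ n * (n : ℝ) ^ 3 * Real.log n ^ K := by gcongr
    have e6 : 4 ^ n * (n : ℝ) ^ 3 * Real.log n ^ K < 4 ^ n * (n : ℝ) ^ 3 * (c₁ * A * n) := by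
      gcongr
    have e7 : 4 ^ n * (n : ℝ) ^ 3 * (c₁ * A * n) = c₁ * (A * (4 ^ n * (n : ℝ) ^ 4)) := by ring
    linarith
  · -- δ > 4
    have hr : 1 < δ / 4 := by rw [lt_div_iff₀ (by norm_num)]; linarith
    have hlim := tendsto_pow_const_div_const_pow_of_one_lt (4 + K) hr
    have hlim' := hlim.eventually (gt_mem_nhds (show (0 : ℝ) < 1 / (c₂ * B) by positivity))
    obtain ⟨n, ⟨⟨hn1, hn2⟩, hn3⟩, hn4⟩ := ((hev.and hh).and hlim').exists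
    obtain ⟨hl1, hl2⟩ := hlog n hn1
    have hn0 : (0 : ℝ) < n := by
      have : (3 : ℝ) ≤ n := by exact_mod_cast hn1
      linarith
    have hn1' : (1 : ℝ) ≤ n := by
      have : (3 : ℝ) ≤ n := by exact_mod_cast hn1
      linarith
    have e1 := (hc n hn2).2
    have e2 := hn3.2
    have hpos : (0 : ℝ) < (δ / 4) ^ n := by positivity
    rw [div_lt_iff₀ hpos] at hn4
    -- lower bound for g
    have e3 : ((n : ℝ) ^ K)⁻¹ ≤ Real.log n ^ k := by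
      have h5 : ((n : ℝ) ^ K)⁻¹ ≤ (Real.log n ^ K)⁻¹ := by
        gcongr
      have h6 : (Real.log n ^ K)⁻¹ ≤ Real.log n ^ k := by
        rw [← zpow_natCast, ← zpow_neg]
        exact zpow_le_zpow_right₀ hl1 (by omega)
      exact h5.trans h6
    have e4 : δ ^ n * ((n : ℝ) ^ K)⁻¹ ≤ δ ^ n * (n : ℝ) ^ l * Real.log n ^ k := by
      have h5 : δ ^ n * 1 * ((n : ℝ) ^ K)⁻¹ ≤ δ ^ n * (n : ℝ) ^ l * Real.log n ^ k := by
        gcongr
        exact one_le_pow₀ hn1'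
      simpa using h5
    have e5 : δ ^ n * ((n : ℝ) ^ K)⁻¹ ≤ c₂ * (B * (4 ^ n * (n : ℝ) ^ 4)) := by
      calc _ ≤ _ := e4
        _ ≤ c₂ * h n := e1
        _ ≤ _ := by gcongr
    have e6 : δ ^ n ≤ c₂ * B * (4 ^ n * (n : ℝ) ^ (4 + K)) := by
      have h5 : (0 : ℝ) < (n : ℝ) ^ K := by positivity
      rw [← div_eq_mul_inv, div_le_iff₀ h5] at e5
      calc δ ^ n ≤ _ := e5
        _ = _ := by rw [pow_add]; ring
    have e7 : (δ / 4) ^ n ≤ c₂ * B * (n : ℝ) ^ (4 + K) := by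
      rw [div_pow, div_le_iff₀ (by positivity)]
      calc δ ^ n ≤ _ := e6
        _ = _ := by ring
    have e8 : c₂ * B * (n : ℝ) ^ (4 + K) < c₂ * B * (1 / (c₂ * B) * (δ / 4) ^ n) := by
      gcongr
    have e9 : c₂ * B * (1 / (c₂ * B) * (δ / 4) ^ n) = (δ / 4) ^ n := by
      field_simp
    linarith

end Pool.Agent.MPa67235
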