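import Mathlib
import Pool.Agent.MPa67235.Asymptotics

/-!
# The counterexample in `ℙ³`
-/

namespace Pool.Agent.MPa67235

open MvPolynomial Filter

/-- There is a dominant rational map `f : ℙ³ ⇢ ℙ³` with dynamical degree at least `4` and a point
`P` with well defined Zariski dense orbit such that `h(f^n(P)) ≍ 4^n n^4`. -/
theorem counterexample : ∃ (f : RatMap Qbar 3) (F : ℕ → RatMap Qbar 3) (δ : ℝ)
    (P : ℕ → Fin 4 → Qbar),
    f.Dominant ∧ f.IsIterates F ∧ RatMap.IsDynDegree F δ ∧ f.IsOrbit F P ∧ ZDense P ∧ 4 ≤ δ ∧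
    ∃ A B : ℝ, 0 < A ∧ 0 < B ∧ ∀ᶠ n : ℕ in atTop,
      A * (4 ^ n * (n : ℝ) ^ 4) ≤ weilHeight (P n) ∧ weilHeight (P n) ≤ B * (4 ^ n * (n : ℝ) ^ 4) := by
  obtain ⟨f, hf⟩ := exists_ratMap
  obtain ⟨F, hF0, hFcomp, hFs⟩ := exists_iterates (by norm_num) PP_ne hf
  have hlow : ∀ n, (4 : ℝ) ^ n ≤ (F n).deg := by
    intro n
    exact_mod_cast four_pow_le (hFs n)
  obtain ⟨δ, hδ, hlim⟩ := exists_dynDegree PP_dense PP_ne hFs (by norm_num : (1 : ℝ) < 4) hlow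
  refine ⟨f, F, δ, PP, dominant_of_dense (by norm_num) PP_dense hf, ⟨hF0, hFcomp⟩, hlim,
    ⟨PP_ne, ?_, ?_⟩, PP_dense, hδ, growth⟩
  · intro n
    obtain ⟨c, hc, h⟩ := hf n
    exact ⟨c, hc, funext h⟩
  · intro n
    obtain ⟨c, hc, h⟩ := hFs n 0
    refine ⟨c, hc, funext (fun i => ?_)⟩
    rw [zero_add] at h
    exact h i

theorem not_question1 : ¬ Question1 := by
  intro hQ
  obtain ⟨f, F, δ, P, hdom, hit, hdyn, horb, hdense, hδ, A, B, hA, hB, hgr⟩ := counterexample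
  obtain ⟨k, l, hl, has⟩ := hQ 3 (by norm_num) f F δ P hdom hit hdyn horb hdense
  exact no_law hA hB hgr hδ k l hl has

theorem not_question2 : ¬ Question2 := by
  intro hQ
  obtain ⟨f, F, δ, P, hdom, hit, hdyn, horb, hdense, hδ, A, B, hA, hB, hgr⟩ := counterexample
  obtain ⟨l, hl, has⟩ := hQ 3 (by norm_num) f F δ P hdom hit hdyn horb hdense (by linarith)
  refine no_law hA hB hgr hδ 0 l hl ?_
  simpa using has

end Pool.Agent.MPa67235
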